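import Pool.Agent.K3h47.FU.Main

/-! Statements: separation by pure monomials and by linear forms in powers. -/

set_option autoImplicit false

namespace Pool.Agent.K3h47.HY

open MvPolynomial Pool.Agent.K3h47.FU

/-- Two-dimensional lemma: the points of a coset of `W` in the triangle `p₁, p₂ ≥ 0`,
`p₁ + p₂ ≤ k`. (Three of them which are not collinear and span a triangle of minimal area generate
`W`.) -/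
def S_TRI2 : Prop := ∀ (W : AddSubgroup (ℤ × ℤ)) (p₀ : ℤ × ℤ) (M k : ℤ),
  1 ≤ M → M ≤ k → ((M, 0) : ℤ × ℤ) ∈ W → ((0, M) : ℤ × ℤ) ∈ W →
  (∃ p : ℤ × ℤ, p - p₀ ∈ W ∧ p.1 = 0 ∧ 0 ≤ p.2 ∧ p.2 ≤ k) →
  (∃ p : ℤ × ℤ, p - p₀ ∈ W ∧ p.2 = 0 ∧ 0 ≤ p.1 ∧ p.1 ≤ k) →
  (∃ p : ℤ × ℤ, p - p₀ ∈ W ∧ p.1 + p.2 = k ∧ 0 ≤ p.1 ∧ 0 ≤ p.2) →
  ∀ G : AddSubgroup (ℤ × ℤ),
    (∀ p q : ℤ × ℤ, p - p₀ ∈ W → q - p₀ ∈ W → 0 ≤ p.1 → 0 ≤ p.2 → p.1 + p.2 ≤ k →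
      0 ≤ q.1 → 0 ≤ q.2 → q.1 + q.2 ≤ k → p - q ∈ G) →
    ((M, 0) : ℤ × ℤ) ∈ G ∧ ((0, M) : ℤ × ℤ) ∈ G

/-- `z ^ a` is a section of the class `c` -/
def InC {r : ℕ} (R : AddSubgroup (ℤ × (Fin r → ℤ))) (c : ℤ × (Fin r → ℤ)) (a : Fin r → ℕ) : Prop :=
  ((c.1, fun i => c.2 i - (a i : ℤ)) : ℤ × (Fin r → ℤ)) ∈ R

/-- all ramification indices are `M`; there are monomials supported at each pair of indices -/
structure Eq {r : ℕ} (R : AddSubgroup (ℤ × (Fin r → ℤ))) (c : ℤ × (Fin r → ℤ)) (M k : ℕ) :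
    Prop where
  two : 2 ≤ M
  le : M ≤ k
  rel : ∀ i, ((-1, Pi.single i (M : ℤ)) : ℤ × (Fin r → ℤ)) ∈ R
  deg : ∀ ρ ∈ R, (M : ℤ) * ρ.1 + ∑ i, ρ.2 i = 0
  hk : (k : ℤ) = M * c.1 + ∑ i, c.2 i
  pair : ∀ i j, i ≠ j → ∃ a : Fin r → ℕ, (∀ m, m ≠ i → m ≠ j → a m = 0) ∧ InC R c a

/-- the monomials supported on three indices -/
def S_TRI3 : Prop := ∀ (r : ℕ) (R : AddSubgroup (ℤ × (Fin r → ℤ))) (c : ℤ × (Fin r → ℤ))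
  (M k : ℕ), Eq R c M k → ∀ i j l : Fin r, i ≠ j → i ≠ l → j ≠ l → ∀ G : AddSubgroup (Fin r → ℤ),
    (∀ a b : Fin r → ℕ, InC R c a → InC R c b → (∀ m, m ≠ i → m ≠ j → m ≠ l → a m = 0) →
      (∀ m, m ≠ i → m ≠ j → m ≠ l → b m = 0) → (fun m => (a m : ℤ) - b m) ∈ G) →
    (Pi.single i (M : ℤ) - Pi.single j (M : ℤ) : Fin r → ℤ) ∈ G

/-- separation of points, all ramification indices equal -/
def S_EQP : Prop := ∀ (N r : ℕ) (R : AddSubgroup (ℤ × (Fin r → ℤ))) (c : ℤ × (Fin r → ℤ))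
  (M k : ℕ) (f : Fin r → MvPolynomial (Fin (N + 1)) ℂ), Eq R c M k →
  (∀ i, (f i).IsHomogeneous 1) → (∀ y : Fin (N + 1) → ℂ, (∀ i, eval y (f i) = 0) → y = 0) →
  ∀ (x x' : Fin (N + 1) → ℂ) (z z' : Fin r → ℂ), (¬ ∃ s : ℂ, ∀ k, x' k = s * x k) →
    (∀ i, z i ^ M = eval x (f i)) → (∀ i, z' i ^ M = eval x' (f i)) →
    2 ≤ (Finset.univ.filter (fun i => z i ≠ 0)).card →
    3 ≤ (Finset.univ.filter (fun i => z' i ≠ 0)).card →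
    ∃ Φ : MvPolynomial (Fin (N + 1) ⊕ Fin r) ℂ, Sec R c Φ ∧ eval (Sum.elim x z) Φ = 0 ∧
      eval (Sum.elim x' z') Φ ≠ 0

/-- separation of tangent vectors, all ramification indices equal -/
def S_EQT : Prop := ∀ (N r : ℕ) (R : AddSubgroup (ℤ × (Fin r → ℤ))) (c : ℤ × (Fin r → ℤ))
  (M k : ℕ) (f : Fin r → MvPolynomial (Fin (N + 1)) ℂ), Eq R c M k →
  (∀ i, (f i).IsHomogeneous 1) → (∀ y : Fin (N + 1) → ℂ, (∀ i, eval y (f i) = 0) → y = 0) →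
  ∀ (x u : Fin (N + 1) → ℂ) (z v : Fin r → ℂ), (¬ ∃ s : ℂ, ∀ k, u k = s * x k) →
    (∀ i, z i ^ M = eval x (f i)) →
    (∀ i, M * z i ^ (M - 1) * v i = ∑ k, eval x (pderiv k (f i)) * u k) →
    3 ≤ (Finset.univ.filter (fun i => z i ≠ 0)).card →
    ∃ Φ : MvPolynomial (Fin (N + 1) ⊕ Fin r) ℂ, Sec R c Φ ∧ eval (Sum.elim x z) Φ = 0 ∧
      dd (Sum.elim x z) (Sum.elim u v) Φ ≠ 0

/-- `F` is a set of independent linear forms `f_j`, `e_j = q ε_j`, and `z_j ^ (ε_j)`, `j ∈ F`, are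
sections of the same line bundle; `z ^ a (z_(j₀) ^ (ε_(j₀))) ^ (L + 1)` is a section of the class
`c` -/
structure Frm {N r : ℕ} (R : AddSubgroup (ℤ × (Fin r → ℤ))) (c : ℤ × (Fin r → ℤ))
    (e : Fin r → ℕ) (f : Fin r → MvPolynomial (Fin (N + 1)) ℂ) (F : Finset (Fin r)) (q : ℕ)
    (ε : Fin r → ℕ) (L : ℕ) (a : Fin r → ℕ) : Prop where
  pos : ∀ i, 0 < e i
  hom : ∀ i, (f i).IsHomogeneous 1
  ind : ∀ y : Fin (N + 1) → ℂ, (∀ j ∈ F, eval y (f j) = 0) → y = 0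
  he : ∀ j ∈ F, e j = q * ε j
  diff : ∀ i ∈ F, ∀ j ∈ F, i ≠ j →
    ((0, Pi.single i (ε i : ℤ) - Pi.single j (ε j : ℤ)) : ℤ × (Fin r → ℤ)) ∈ R
  sec : ∃ j₀ ∈ F, ((c.1, fun i => c.2 i - (a i : ℤ) -
    (if i = j₀ then (((L + 1) * ε j₀ : ℕ) : ℤ) else 0)) : ℤ × (Fin r → ℤ)) ∈ R

/-- separation of points by linear forms in powers -/
def S_FRP : Prop := ∀ (N r : ℕ) (R : AddSubgroup (ℤ × (Fin r → ℤ))) (c : ℤ × (Fin r → ℤ))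
  (e : Fin r → ℕ) (f : Fin r → MvPolynomial (Fin (N + 1)) ℂ) (F : Finset (Fin r)) (q : ℕ)
  (ε : Fin r → ℕ) (L : ℕ) (a : Fin r → ℕ), Frm R c e f F q ε L a →
  ∀ (x x' : Fin (N + 1) → ℂ) (z z' : Fin r → ℂ), (¬ ∃ s : ℂ, ∀ k, x' k = s * x k) →
    (∀ i, z i ^ e i = eval x (f i)) → (∀ i, z' i ^ e i = eval x' (f i)) →
    (∀ i, z' i = 0 → a i = 0) →
    ∃ Φ : MvPolynomial (Fin (N + 1) ⊕ Fin r) ℂ, Sec R c Φ ∧ eval (Sum.elim x z) Φ = 0 ∧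
      eval (Sum.elim x' z') Φ ≠ 0

/-- separation of tangent vectors by linear forms in powers -/
def S_FRT : Prop := ∀ (N r : ℕ) (R : AddSubgroup (ℤ × (Fin r → ℤ))) (c : ℤ × (Fin r → ℤ))
  (e : Fin r → ℕ) (f : Fin r → MvPolynomial (Fin (N + 1)) ℂ) (F : Finset (Fin r)) (q : ℕ)
  (ε : Fin r → ℕ) (L : ℕ) (a : Fin r → ℕ), Frm R c e f F q ε L a →
  ∀ (x u : Fin (N + 1) → ℂ) (z v : Fin r → ℂ), x ≠ 0 → (¬ ∃ s : ℂ, ∀ k, u k = s * x k) →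
    (∀ i, z i ^ e i = eval x (f i)) →
    (∀ i, e i * z i ^ (e i - 1) * v i = ∑ k, eval x (pderiv k (f i)) * u k) →
    (∀ i, z i = 0 → a i = 0) →
    ∃ Φ : MvPolynomial (Fin (N + 1) ⊕ Fin r) ℂ, Sec R c Φ ∧ eval (Sum.elim x z) Φ = 0 ∧
      dd (Sum.elim x z) (Sum.elim u v) Φ ≠ 0

end Pool.Agent.K3h47.HY
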