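import Pool.Agent.K3h47.HY.Up2
import Pool.Agent.K3h47.HY.Main3
import Pool.Agent.K3h47.HY.Stm2
import Pool.Agent.K3h57.HY.FZ

/-! From the combinatorial results to the monomials of a class. -/

set_option autoImplicit false
set_option linter.unusedSectionVars false

namespace Pool.Agent.K3h47.HY

open MvPolynomial Pool.Agent.K3h47.FU

variable {n r : ℕ} {R : AddSubgroup (ℤ × (Fin r → ℤ))} {δ e : Fin r → ℕ}

theorem dvd_of_one {M : ℕ} (hδ : ∀ i, δ i = 1) (hd : ∀ j, e j ∣ M * δ j) (j : Fin r) : e j ∣ M := by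
  have := hd j
  rwa [hδ j, mul_one] at this

theorem cmb (h : Dat R δ e n) (hδ : ∀ i, δ i = 1) {M : ℕ} (hM : M ≠ 0)
    (hd : ∀ j, e j ∣ M * δ j) (hF : ∀ p : ℕ, p.Prime → p ∣ M →
      n + 1 ≤ (Finset.univ.filter (fun j => p ^ M.factorization p ∣ e j)).card) :
    Cmb n r M e (Lam R e) := by
  classical
  have hdv := dvd_of_one hδ hd
  refine ⟨hM, h.two, hdv, h.sur, ?_, hF⟩
  rintro ρ ⟨σ, hσ, rfl⟩
  have hne := h.neZero
  have h1 : ∀ i, (((red e σ) i).val : ℤ) = σ.2 i - (e i : ℤ) * (σ.2 i / e i) := by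
    intro i
    change (((σ.2 i : ℤ) : ZMod (e i)).val : ℤ) = _
    rw [ZMod.val_intCast, Int.emod_def]
  have h2 : (M : ℤ) * σ.1 + ∑ i, σ.2 i * ((M / e i : ℕ) : ℤ) = 0 := by
    have h3 := h.deg σ hσ
    have h4 : (M : ℚ) * σ.1 + ∑ i, (σ.2 i : ℚ) * ((M / e i : ℕ) : ℚ) = 0 := by
      have h5 : ∀ i, (σ.2 i : ℚ) * ((M / e i : ℕ) : ℚ) = M * ((σ.2 i : ℚ) * (δ i / e i)) := by
        intro i
        have h6 : (e i : ℚ) ≠ 0 := by exact_mod_cast (hne i).ne
        rw [Nat.cast_div (hdv i) h6, hδ i]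
        push_cast
        ring
      simp only [h5]
      rw [← Finset.mul_sum, ← mul_add, h3, mul_zero]
    have h7 : (((M : ℤ) * σ.1 + ∑ i, σ.2 i * ((M / e i : ℕ) : ℤ) : ℤ) : ℚ) = 0 := by
      rw [← h4, Int.cast_add, Int.cast_mul, Int.cast_sum]
      simp only [Int.cast_mul, Int.cast_natCast]
    exact Int.cast_eq_zero.1 h7
  have h3 : ((∑ i, ((red e σ) i).val * (M / e i) : ℕ) : ℤ)
      = M * (-σ.1 - ∑ i, (σ.2 i / e i)) := by
    rw [Nat.cast_sum]
    have h4 : ∀ i, ((((red e σ) i).val * (M / e i) : ℕ) : ℤ)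
        = σ.2 i * ((M / e i : ℕ) : ℤ) - M * (σ.2 i / e i) := by
      intro i
      have h5 : (M : ℤ) = e i * ((M / e i : ℕ) : ℤ) := by
        exact_mod_cast (Nat.mul_div_cancel' (hdv i)).symm
      rw [Nat.cast_mul, h1]
      linear_combination (σ.2 i / e i) * h5
    rw [Finset.sum_congr rfl fun i _ => h4 i, Finset.sum_sub_distrib, ← Finset.mul_sum]
    linear_combination h2
  have h4 : (M : ℤ) ∣ ((∑ i, ((red e σ) i).val * (M / e i) : ℕ) : ℤ) := ⟨_, h3⟩
  exact Int.natCast_dvd_natCast.1 h4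

/-- the value in terms of degrees -/
theorem val_eq (h : Dat R δ e n) (hδ : ∀ i, δ i = 1) {M : ℕ}
    (hd : ∀ j, e j ∣ M * δ j) (y : ∀ i, ZMod (e i)) :
    (M : ℚ) * ∑ i, ((y i).val : ℚ) * (δ i / e i) = Val M e y := by
  have hdv := dvd_of_one hδ hd
  rw [Val, Nat.cast_sum, Finset.mul_sum]
  refine Finset.sum_congr rfl fun i _ => ?_
  have h6 : (e i : ℚ) ≠ 0 := by exact_mod_cast (h.neZero i).ne
  rw [Nat.cast_mul, Nat.cast_div (hdv i) h6, hδ i]
  push_cast
  ring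

theorem big_mon (h : Dat R δ e n) (hδ : ∀ i, δ i = 1) {M : ℕ} (hM : M ≠ 0)
    (hd : ∀ j, e j ∣ M * δ j) (c : ℤ × (Fin r → ℤ))
    (hβ : -((n : ℚ) + 1) * M + n + 2 ≤ M * bet δ e c) (J : Finset (Fin r))
    (hb : Big n M e (Lam R e) J (x0 e c)) :
    ∃ (L : ℤ) (a : Fin r → ℕ), 1 ≤ L ∧ (∀ i ∈ J, a i = 0) ∧
      ((c.1 - L, fun i => c.2 i - (a i : ℤ)) : ℤ × (Fin r → ℤ)) ∈ R := by
  obtain ⟨y, hy1, hy2, hy3⟩ := hb
  obtain ⟨L, hL1, hL2⟩ := h.exists_L c y hy1
  refine ⟨L, aOf y, ?_, fun i hi => by rw [aOf, hy2 i hi]; omega, hL1⟩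
  have hMpos : (0 : ℚ) < M := by exact_mod_cast Nat.pos_of_ne_zero hM
  have h3 : (((n + 1) * M : ℕ) : ℚ) < ((Val M e y + (n + 2) : ℕ) : ℚ) := by exact_mod_cast hy3
  push_cast at h3
  have h4 : (0 : ℚ) < M * L := by
    rw [hL2, mul_add, val_eq h hδ hd]
    linarith
  have h7 : (0 : ℚ) < L := by
    by_contra hcon
    push Not at hcon
    nlinarith
  exact_mod_cast (show (0 : ℤ) < L by exact_mod_cast h7)

theorem lift_mem (h : Dat R δ e n) (u : Fin r → ℤ)
    (hu : (fun i => ((u i : ℤ) : ZMod (e i))) ∈ Lam R e) : ∃ l : ℤ, ((l, u) : ℤ × (Fin r → ℤ)) ∈ R := by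
  classical
  obtain ⟨ρ, hρ, hρu⟩ := hu
  have h1 : ∀ i, ∃ q : ℤ, u i = ρ.2 i + q * e i := by
    intro i
    have h2 : ((ρ.2 i : ℤ) : ZMod (e i)) = ((u i : ℤ) : ZMod (e i)) := congrFun hρu i
    rw [ZMod.intCast_eq_intCast_iff_dvd_sub] at h2
    obtain ⟨q, hq⟩ := h2
    exact ⟨q, by linarith⟩
  choose q hq using h1
  set σ : ℤ × (Fin r → ℤ) := ρ + ∑ i, q i • ((-(δ i : ℤ), Pi.single i (e i : ℤ)) :
    ℤ × (Fin r → ℤ)) with hσ
  have hσR : σ ∈ R := R.add_mem hρ (R.sum_mem fun i _ => R.zsmul_mem (h.rel i) _)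
  have hσ2 : σ.2 = u := by
    funext i
    rw [hq i, hσ, Prod.snd_add, Pi.add_apply, Prod.snd_sum, Finset.sum_apply,
      Finset.sum_eq_single i]
    · simp
    · intro j _ hji
      simp [hji.symm]
    · intro hi; exact absurd (Finset.mem_univ i) hi
  exact ⟨σ.1, by rw [← hσ2]; exact hσR⟩

/-- the differences of the reduced roots -/
theorem diff_mem (h : Dat R δ e n) (hδ : ∀ i, δ i = 1) {M : ℕ} (hM : M ≠ 0)
    (hd : ∀ j, e j ∣ M * δ j) (hF : ∀ p : ℕ, p.Prime → p ∣ M →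
      n + 1 ≤ (Finset.univ.filter (fun j => p ^ M.factorization p ∣ e j)).card)
    (hn : 1 ≤ n) {p : ℕ} (hp : p.Prime) (hpM : p ∣ M) (hFc : (Ful M e p).card = n + 1)
    {i j : Fin r} (hi : i ∈ Ful M e p) (hj : j ∈ Ful M e p) (hij : i ≠ j) :
    ((0, Pi.single i (eu M e p i : ℤ) - Pi.single j (eu M e p j : ℤ)) : ℤ × (Fin r → ℤ)) ∈ R := by
  classical
  have hC := cmb h hδ hM hd hF
  have h1 := Pool.Agent.K3h57.HY.t_FZ n r M e (Lam R e) hC hn p hp hpM hFc i hi j hj hij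
  have hE : ∀ k ∈ Ful M e p, e k / p = eu M e p k := by
    intro k hk
    have h2 := eu_of_mem hC hp hpM hk
    exact Nat.div_eq_of_eq_mul_right hp.pos h2
  obtain ⟨l, hl⟩ := lift_mem h (Pi.single i (eu M e p i : ℤ) - Pi.single j (eu M e p j : ℤ)) (by
    convert h1 using 1
    funext k
    rw [Pi.sub_apply, Pi.sub_apply, hE i hi, hE j hj]
    by_cases hki : k = i
    · subst hki
      rw [Pi.single_eq_same, Pi.single_eq_same, Pi.single_eq_of_ne hij, Pi.single_eq_of_ne hij]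
      push_cast
      ring
    · by_cases hkj : k = j
      · subst hkj
        rw [Pi.single_eq_same, Pi.single_eq_same, Pi.single_eq_of_ne hki, Pi.single_eq_of_ne hki]
        push_cast
        ring
      · rw [Pi.single_eq_of_ne hki, Pi.single_eq_of_ne hkj, Pi.single_eq_of_ne hki,
          Pi.single_eq_of_ne hkj]
        push_cast
        ring)
  have h2 := h.deg _ hl
  have hterm : ∀ k ∈ Ful M e p, (eu M e p k : ℚ) * (δ k / e k) = 1 / p := by
    intro k hk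
    have h3 : (e k : ℚ) = p * eu M e p k := by exact_mod_cast eu_of_mem hC hp hpM hk
    have h4 : (eu M e p k : ℚ) ≠ 0 := by exact_mod_cast (eu_pos hC hp hpM k).ne'
    have h5 : (p : ℚ) ≠ 0 := by exact_mod_cast hp.pos.ne'
    rw [h3, hδ k]
    field_simp
    push_cast
    ring
  have h3 : ∑ k, (((Pi.single i (eu M e p i : ℤ) - Pi.single j (eu M e p j : ℤ) :
      Fin r → ℤ) k : ℤ) : ℚ) * (δ k / e k) = 0 := by
    have h4 : ∀ k, (((Pi.single i (eu M e p i : ℤ) - Pi.single j (eu M e p j : ℤ) :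
        Fin r → ℤ) k : ℤ) : ℚ) * (δ k / e k)
        = (if k = i then 1 / (p : ℚ) else 0) - (if k = j then 1 / (p : ℚ) else 0) := by
      intro k
      rw [Pi.sub_apply]
      by_cases hki : k = i
      · subst hki
        rw [Pi.single_eq_same, Pi.single_eq_of_ne hij, if_pos rfl, if_neg hij, ← hterm k hi]
        push_cast
        ring
      · by_cases hkj : k = j
        · subst hkj
          rw [Pi.single_eq_same, Pi.single_eq_of_ne hki, if_pos rfl, if_neg hki, ← hterm k hj]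
          push_cast
          ring
        · rw [Pi.single_eq_of_ne hki, Pi.single_eq_of_ne hkj, if_neg hki, if_neg hkj]
          push_cast
          ring
    rw [Finset.sum_congr rfl fun k _ => h4 k, Finset.sum_sub_distrib, Finset.sum_ite_eq',
      Finset.sum_ite_eq', if_pos (Finset.mem_univ _), if_pos (Finset.mem_univ _), sub_self]
  simp only at h2
  rw [h3, add_zero] at h2
  have h4 : l = 0 := by exact_mod_cast h2
  rw [h4] at hl
  exact hl

end Pool.Agent.K3h47.HY
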