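import Pool.Agent.K3h47.HY.Bridge

/-! The case that all the ramification indices are equal, and there are at most `n + 2` of them. -/

set_option autoImplicit false
set_option linter.unusedSectionVars false

namespace Pool.Agent.K3h47.HY

open MvPolynomial Pool.Agent.K3h47.FU

variable {n r : ℕ} {R : AddSubgroup (ℤ × (Fin r → ℤ))} {δ e : Fin r → ℕ}

theorem all_eq {M : ℕ} {Λ : AddSubgroup (∀ i, ZMod (e i))} (hC : Cmb n r M e Λ)
    (hall : ∀ p : ℕ, p.Prime → p ∣ M → Ful M e p = Finset.univ) (i : Fin r) : e i = M := by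
  have he0 : e i ≠ 0 := by have := hC.two i; omega
  refine Nat.dvd_antisymm (hC.dvd i) ?_
  rw [← Nat.factorization_prime_le_iff_dvd hC.M0 he0]
  intro p hp
  by_cases hpM : p ∣ M
  · have h1 : i ∈ Ful M e p := by rw [hall p hp hpM]; exact Finset.mem_univ i
    exact (hp.pow_dvd_iff_le_factorization he0).1 (Finset.mem_filter.1 h1).2
  · rw [Nat.factorization_eq_zero_of_not_dvd hpM]
    exact Nat.zero_le _

/-- the number `k = M deg` of a class -/
theorem deg_eq (h : Dat R δ e n) (hδ : ∀ i, δ i = 1) {M : ℕ} (hM : M ≠ 0) (he : ∀ i, e i = M)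
    (c : ℤ × (Fin r → ℤ)) :
    (M : ℚ) * bet δ e c = ((M * c.1 + ∑ i, c.2 i : ℤ) : ℚ) - r * (M - 1) := by
  have hM' : (M : ℚ) ≠ 0 := by exact_mod_cast hM
  rw [bet, mul_add, Finset.mul_sum]
  have h1 : ∀ i, (M : ℚ) * (((c.2 i : ℚ) - (e i - 1)) * (δ i / e i)) = c.2 i - (M - 1) := by
    intro i
    rw [hδ i, he i]
    field_simp
    push_cast
    ring
  rw [Finset.sum_congr rfl fun i _ => h1 i, Finset.sum_sub_distrib, Finset.sum_const,
    Finset.card_univ, Fintype.card_fin, nsmul_eq_mul]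
  push_cast
  ring

theorem deg_R (h : Dat R δ e n) (hδ : ∀ i, δ i = 1) {M : ℕ} (hM : M ≠ 0) (he : ∀ i, e i = M)
    (ρ : ℤ × (Fin r → ℤ)) (hρ : ρ ∈ R) : (M : ℤ) * ρ.1 + ∑ i, ρ.2 i = 0 := by
  have hM' : (M : ℚ) ≠ 0 := by exact_mod_cast hM
  have h1 := h.deg ρ hρ
  have h2 : ∀ i, (ρ.2 i : ℚ) = M * ((ρ.2 i : ℚ) * (δ i / e i)) := by
    intro i
    rw [hδ i, he i]
    field_simp
    push_cast
    ring
  have h3 : (M : ℚ) * ρ.1 + ∑ i, (ρ.2 i : ℚ) = 0 := by
    rw [Finset.sum_congr rfl fun i _ => h2 i, ← Finset.mul_sum, ← mul_add, h1, mul_zero]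
  exact_mod_cast h3

/-- `n + 1` hyperplanes: the coordinates `z_i` are sections of one line bundle -/
theorem diff_all (h : Dat R δ e n) (hδ : ∀ i, δ i = 1) {M : ℕ} (hM : M ≠ 0) (he : ∀ i, e i = M)
    (hr : r = n + 1) (i j : Fin r) (hij : i ≠ j) :
    ((0, Pi.single i 1 - Pi.single j 1) : ℤ × (Fin r → ℤ)) ∈ R := by
  classical
  have hne := h.neZero
  obtain ⟨ρ, ⟨σ, hσ, hσρ⟩, h1, h0⟩ := h.sur (Finset.univ.erase j) (by
    rw [Finset.card_erase_of_mem (Finset.mem_univ j), Finset.card_univ, Fintype.card_fin]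
    omega) i (Finset.mem_erase.2 ⟨hij, Finset.mem_univ i⟩)
  have h2 : ∀ k, k ≠ j → (M : ℤ) ∣ σ.2 k - (Pi.single i 1 : Fin r → ℤ) k := by
    intro k hk
    have h3 : ((σ.2 k : ℤ) : ZMod (e k)) = ρ k := congrFun hσρ k
    rw [← he k]
    by_cases hki : k = i
    · subst hki
      rw [Pi.single_eq_same]
      rw [h1] at h3
      have h4 : ((1 : ℤ) : ZMod (e k)) = ((σ.2 k : ℤ) : ZMod (e k)) := by
        rw [h3]
        push_cast
        rfl
      rw [ZMod.intCast_eq_intCast_iff_dvd_sub] at h4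
      exact h4
    · rw [Pi.single_eq_of_ne hki]
      rw [h0 k (Finset.mem_erase.2 ⟨hk, Finset.mem_univ k⟩) hki] at h3
      have h4 : ((0 : ℤ) : ZMod (e k)) = ((σ.2 k : ℤ) : ZMod (e k)) := by
        rw [h3]
        push_cast
        rfl
      rw [ZMod.intCast_eq_intCast_iff_dvd_sub] at h4
      exact h4
  have hdeg := deg_R h hδ hM he σ hσ
  have h3 : (M : ℤ) ∣ σ.2 j - (-1) := by
    rw [← Finset.add_sum_erase _ _ (Finset.mem_univ j)] at hdeg
    have h4 : ∑ k ∈ Finset.univ.erase j, (Pi.single i 1 : Fin r → ℤ) k = 1 := by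
      rw [Finset.sum_eq_single i]
      · rw [Pi.single_eq_same]
      · intro k _ hk
        rw [Pi.single_eq_of_ne hk]
      · intro h5
        exact absurd (Finset.mem_erase.2 ⟨hij, Finset.mem_univ i⟩) h5
    have h5 : (M : ℤ) ∣ ∑ k ∈ Finset.univ.erase j, (σ.2 k - (Pi.single i 1 : Fin r → ℤ) k) :=
      Finset.dvd_sum fun k hk => h2 k (Finset.ne_of_mem_erase hk)
    rw [Finset.sum_sub_distrib, h4] at h5
    have h6 : σ.2 j - (-1) = -((M : ℤ) * σ.1)
        - (∑ k ∈ Finset.univ.erase j, σ.2 k - 1) := by linarith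
    rw [h6]
    exact dvd_sub (Dvd.intro _ (by ring : (M : ℤ) * (-σ.1) = -((M : ℤ) * σ.1))) h5
  have h4 : ∀ k, (M : ℤ) ∣ σ.2 k - (Pi.single i 1 - Pi.single j 1 : Fin r → ℤ) k := by
    intro k
    rw [Pi.sub_apply]
    by_cases hk : k = j
    · subst hk
      rw [Pi.single_eq_of_ne hij.symm, Pi.single_eq_same, zero_sub]
      exact h3
    · rw [Pi.single_eq_of_ne (i := j) hk, sub_zero]
      exact h2 k hk
  obtain ⟨l, hl⟩ := lift_mem h (Pi.single i 1 - Pi.single j 1) (by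
    refine ⟨σ, hσ, ?_⟩
    funext k
    change ((σ.2 k : ℤ) : ZMod (e k)) = _
    symm
    rw [ZMod.intCast_eq_intCast_iff_dvd_sub, he k]
    exact h4 k)
  have h5 := deg_R h hδ hM he _ hl
  have h6 : ∑ k, (Pi.single i 1 - Pi.single j 1 : Fin r → ℤ) k = 0 := by
    simp only [Pi.sub_apply]
    rw [Finset.sum_sub_distrib, Finset.sum_pi_single', Finset.sum_pi_single']
    simp
  simp only at h5
  rw [h6, add_zero] at h5
  have h7 : l = 0 := by
    rcases mul_eq_zero.1 h5 with h8 | h8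
    · exact absurd (by exact_mod_cast h8) hM
    · exact h8
  rw [h7] at hl
  exact hl

theorem frm_all (h : Dat R δ e n) (hδ : ∀ i, δ i = 1) {M : ℕ} (hM : M ≠ 0) (he : ∀ i, e i = M)
    (hr : r = n + 1) (c : ℤ × (Fin r → ℤ))
    (hβ : -((n : ℚ) + 1) * M + n + 2 ≤ M * bet δ e c)
    (f : Fin r → MvPolynomial (Fin (n + 1)) ℂ) (hf : ∀ i, (f i).IsHomogeneous (δ i))
    (hfew : ∀ (x : Fin (n + 1) → ℂ) (z : Fin r → ℂ), x ≠ 0 → (∀ i, z i ^ e i = eval x (f i)) →
      (Finset.univ.filter (fun i => z i = 0)).card ≤ n) :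
    ∃ L : ℕ, Frm R c e f Finset.univ M (fun _ => 1) L (fun _ => 0) := by
  classical
  have hne := h.neZero
  have h1 := deg_eq h hδ hM he c
  rw [h1] at hβ
  obtain ⟨k, hk⟩ : ∃ k : ℤ, k = M * c.1 + ∑ i, c.2 i := ⟨_, rfl⟩
  rw [← hk] at hβ
  have hrq : (r : ℚ) = n + 1 := by rw [hr]; push_cast; ring
  rw [hrq] at hβ
  have hk1 : (1 : ℚ) ≤ k := by linarith
  have hk2 : (1 : ℤ) ≤ k := by exact_mod_cast hk1
  obtain ⟨L, hL⟩ : ∃ L : ℕ, k = (L : ℤ) + 1 := ⟨(k - 1).toNat, by omega⟩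
  refine ⟨L, fun i => Nat.pos_of_ne_zero (hne i).ne, fun i => by
    have := hf i
    rwa [hδ i] at this, ?_, fun j _ => by rw [he j, mul_one], ?_, ?_⟩
  · intro y hy
    by_contra hy0
    have hz : ∀ i, ∃ z : ℂ, z ^ e i = eval y (f i) := fun i =>
      IsAlgClosed.exists_pow_nat_eq _ (Nat.pos_of_ne_zero (hne i).ne)
    choose z hz using hz
    have h1 := hfew y z hy0 hz
    have h2 : (Finset.univ : Finset (Fin r)) ⊆ Finset.univ.filter (fun i => z i = 0) := by
      intro i hi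
      rw [Finset.mem_filter]
      refine ⟨Finset.mem_univ i, ?_⟩
      have h3 := hz i
      rw [hy i hi] at h3
      exact (pow_eq_zero_iff (hne i).ne).1 h3
    have h3 := Finset.card_le_card h2
    rw [Finset.card_univ, Fintype.card_fin] at h3
    omega
  · intro i _ j _ hij
    have := diff_all h hδ hM he hr i j hij
    simpa using this
  · have hr0 : 0 < r := by omega
    refine ⟨⟨0, hr0⟩, Finset.mem_univ _, ?_⟩
    obtain ⟨j₀, hj₀⟩ : ∃ j₀ : Fin r, j₀ = ⟨0, hr0⟩ := ⟨_, rfl⟩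
    rw [← hj₀]
    set σ : ℤ × (Fin r → ℤ) := ∑ j ∈ Finset.univ.erase j₀, c.2 j •
        ((0, Pi.single j 1 - Pi.single j₀ 1) : ℤ × (Fin r → ℤ))
      - c.1 • ((-(δ j₀ : ℤ), Pi.single j₀ (e j₀ : ℤ)) : ℤ × (Fin r → ℤ)) with hσ
    have hσR : σ ∈ R := by
      refine R.sub_mem (R.sum_mem fun j hj => R.zsmul_mem ?_ _) (R.zsmul_mem (h.rel j₀) _)
      exact diff_all h hδ hM he hr j j₀ (Finset.ne_of_mem_erase hj)
    have hgoal : ((c.1, fun i => c.2 i - ((0 : ℕ) : ℤ) -
        (if i = j₀ then (((L + 1) * 1 : ℕ) : ℤ) else 0)) : ℤ × (Fin r → ℤ)) = σ := by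
      refine Prod.ext ?_ ?_
      · rw [hσ]
        simp [Prod.fst_sum, hδ j₀]
      · funext i
        rw [hσ, Prod.snd_sub, Pi.sub_apply, Prod.snd_sum, Finset.sum_apply]
        simp only [Prod.smul_snd, Pi.smul_apply, Pi.sub_apply, smul_eq_mul]
        rw [he j₀]
        by_cases hi : i = j₀
        · subst hi
          rw [if_pos rfl, Pi.single_eq_same, Pi.single_eq_same]
          have h1 : ∑ j ∈ Finset.univ.erase i, c.2 j * ((Pi.single j 1 : Fin r → ℤ) i - 1)
              = -(∑ j ∈ Finset.univ.erase i, c.2 j) := by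
            rw [← Finset.sum_neg_distrib]
            refine Finset.sum_congr rfl fun j hj => ?_
            rw [Pi.single_eq_of_ne (Finset.ne_of_mem_erase hj).symm]
            ring
          rw [h1]
          rw [hL, ← Finset.add_sum_erase _ _ (Finset.mem_univ i)] at hk
          push_cast
          linear_combination -hk
        · rw [if_neg hi, Pi.single_eq_of_ne hi, Pi.single_eq_of_ne hi, Finset.sum_eq_single i]
          · rw [Pi.single_eq_same]
            push_cast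
            ring
          · intro j _ hji
            rw [Pi.single_eq_of_ne hji.symm]
            ring
          · intro h2
            exact absurd (Finset.mem_erase.2 ⟨hi, Finset.mem_univ i⟩) h2
    rw [hgoal]
    exact hσR

/-- `n + 2` hyperplanes -/
theorem eq_data (h : Dat R δ e n) (hδ : ∀ i, δ i = 1) {M : ℕ} (hM : M ≠ 0) (he : ∀ i, e i = M)
    (hr : r = n + 2) (c : ℤ × (Fin r → ℤ))
    (hβ : -((n : ℚ) + 1) * M + n + 2 ≤ M * bet δ e c) :
    ∃ k : ℕ, Eq R c M k := by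
  classical
  have hne := h.neZero
  have h1 := deg_eq h hδ hM he c
  have hβ' := hβ
  rw [h1] at hβ'
  obtain ⟨k, hk⟩ : ∃ k : ℤ, k = M * c.1 + ∑ i, c.2 i := ⟨_, rfl⟩
  rw [← hk] at hβ' h1
  have hrq : (r : ℚ) = n + 2 := by rw [hr]; push_cast; ring
  rw [hrq] at hβ' h1
  have hk1 : (M : ℚ) ≤ k := by linarith
  have hk2 : (M : ℤ) ≤ k := by exact_mod_cast hk1
  have hM2 : 2 ≤ M := by
    rw [← he ⟨0, by omega⟩]
    exact h.two _
  have hrel : ∀ i, ((-1, Pi.single i (M : ℤ)) : ℤ × (Fin r → ℤ)) ∈ R := by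
    intro i
    have := h.rel i
    rw [hδ i, he i] at this
    exact_mod_cast this
  refine ⟨k.toNat, hM2, by omega, hrel, fun ρ hρ => deg_R h hδ hM he ρ hρ, by
    rw [← hk]; omega, ?_⟩
  intro i j hij
  -- prescribed exponents
  obtain ⟨y, hy1, hy2⟩ := h.exists_pre (x0 e c) (Finset.univ \ {i, j}) (by
    rw [Finset.card_sdiff_of_subset (Finset.subset_univ _), Finset.card_univ, Fintype.card_fin,
      Finset.card_pair hij]
    omega) (fun m => ((e m - 1 - 0 : ℕ) : ZMod (e m)))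
  obtain ⟨L, hL1, hL2⟩ := h.exists_L c y hy1
  have hval : ∀ m, m ≠ i → m ≠ j → (y m).val = e m - 1 := by
    intro m hmi hmj
    rw [hy2 m (by simp [hmi, hmj]), val_cast, Nat.sub_zero]
  have ha0 : ∀ m, m ≠ i → m ≠ j → aOf y m = 0 := by
    intro m hmi hmj
    rw [aOf, hval m hmi hmj]
    omega
  -- the degree
  have hML : (M : ℤ) * L = k - ∑ m, (aOf y m : ℤ) := by
    have h2 := deg_R h hδ hM he _ hL1
    simp only at h2
    rw [Finset.sum_sub_distrib] at h2
    rw [hk]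
    linear_combination -h2
  have hsum : ∑ m, (aOf y m : ℤ) = aOf y i + aOf y j := by
    rw [← Finset.sum_subset (Finset.subset_univ ({i, j} : Finset (Fin r))), Finset.sum_pair hij]
    intro m _ hm
    rw [Finset.mem_insert, Finset.mem_singleton, not_or] at hm
    rw [ha0 m hm.1 hm.2]
    rfl
  have hle : ∀ m, (aOf y m : ℤ) ≤ M - 1 := by
    intro m
    have h2 := he m
    have h3 : aOf y m ≤ e m - 1 := by rw [aOf]; omega
    omega
  have hL0 : 0 ≤ L := by
    by_contra hcon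
    push Not at hcon
    have h2 : (M : ℤ) * L ≤ M * (-1) := mul_le_mul_of_nonneg_left (by omega) (by omega)
    have h3 := hle i
    have h4 := hle j
    rw [hML, hsum] at h2
    omega
  lift L to ℕ using hL0
  refine ⟨fun m => if m = i then aOf y i + M * L else aOf y m, fun m hmi hmj => by
    simp only [if_neg hmi]; exact ha0 m hmi hmj, ?_⟩
  have hgoal : ((c.1, fun m => c.2 m - ((if m = i then aOf y i + M * L else aOf y m : ℕ) : ℤ)) :
      ℤ × (Fin r → ℤ)) = ((c.1 - L, fun i => c.2 i - (aOf y i : ℤ)) : ℤ × (Fin r → ℤ))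
        - (L : ℤ) • ((-1, Pi.single i (M : ℤ)) : ℤ × (Fin r → ℤ)) := by
    refine Prod.ext ?_ ?_
    · simp
    · funext m
      simp only [Prod.snd_sub, Pi.sub_apply, Prod.smul_snd, Pi.smul_apply, smul_eq_mul]
      by_cases hm : m = i
      · subst hm
        rw [if_pos rfl, Pi.single_eq_same]
        push_cast
        ring
      · rw [if_neg hm, Pi.single_eq_of_ne hm]
        ring
  rw [InC, hgoal]
  exact R.sub_mem hL1 (R.zsmul_mem (hrel i) _)

end Pool.Agent.K3h47.HY
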