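import Pool.Agent.K3h47.HY.Bridge

/-! The critical case: exactly `n + 1` of the ramification indices are divisible by the full power
of a prime. -/

set_option autoImplicit false
set_option linter.unusedSectionVars false

namespace Pool.Agent.K3h47.HY

open MvPolynomial Pool.Agent.K3h47.FU

section
variable {n r M : ℕ} {e : Fin r → ℕ} {Λ : AddSubgroup (∀ i, ZMod (e i))} (h : Cmb n r M e Λ)
  {p : ℕ} (hp : p.Prime) (hpM : p ∣ M)
include h hp hpM

/-- the contribution of the lower digits -/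
theorem low_est (x : ∀ i, ZMod (e i)) (J : Finset (Fin r)) (hJ : J.card + 1 ≤ n) (i₀ : Fin r)
    (hi₀ : i₀ ∉ Ful M e p) :
    ∃ z, z - x ∈ Λ ∧ (∀ i ∈ J, (z i).val % eu M e p i = eu M e p i - 1) ∧
      0 < (n + 2 : ℚ) - (n + 1) * M + ((n : ℚ) + 1) * (p - 1) * ((M / p : ℕ) : ℚ)
        + (∑ j, lowq M e p z j + (p - 1) * ∑ j ∈ Finset.univ \ Ful M e p, lowq M e p z j) := by
  classical
  obtain ⟨I, hI⟩ : ∃ I, I = insert i₀ J := ⟨_, rfl⟩
  have hIc : I.card ≤ n := by
    have := Finset.card_insert_le i₀ J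
    rw [← hI] at this
    omega
  have hi₀I : i₀ ∈ I := by rw [hI]; exact Finset.mem_insert_self _ _
  have hJI : J ⊆ I := by rw [hI]; exact Finset.subset_insert _ _
  obtain ⟨z, hz, hzI, _, hz1⟩ := lower h hp hpM x I hIc
  refine ⟨z, hz, fun i hi => hzI i (hJI hi), ?_⟩
  have hV := hz1 i₀ hi₀I
  have hp2 : (2 : ℚ) ≤ p := by exact_mod_cast hp.two_le
  have hM'0 := Mp_ne h hp hpM
  have hM' : (0 : ℚ) < ((M / p : ℕ) : ℚ) := by exact_mod_cast Nat.pos_of_ne_zero hM'0
  have hMq : (M : ℚ) = p * ((M / p : ℕ) : ℚ) := by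
    have := Nat.mul_div_cancel' hpM
    exact_mod_cast this.symm
  have he0 : eu M e p i₀ = e i₀ := eu_of_notMem h hp hpM hi₀
  have hlowI : ∀ i ∈ I, lowq M e p z i = ((M / p : ℕ) : ℚ) - wt (eu M e p) (M / p) i := by
    intro i hi
    have hE := eu_pos h hp hpM i
    have h1 : wt (eu M e p) (M / p) i * eu M e p i = M / p := by
      rw [wt_eu h hp hpM, Nat.div_mul_cancel (eu_dvd' h hp hpM i)]
    have h2 : (wt (eu M e p) (M / p) i : ℚ) * eu M e p i = ((M / p : ℕ) : ℚ) := by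
      exact_mod_cast h1
    rw [lowq, hzI i hi, Nat.cast_sub (by omega), Nat.cast_one]
    linarith
  have hall : ∑ j, lowq M e p z j = ∑ i ∈ I, (((M / p : ℕ) : ℚ) - wt (eu M e p) (M / p) i)
      + ∑ j ∈ Finset.univ \ I, lowq M e p z j := by
    rw [← Finset.sum_sdiff (Finset.subset_univ I), Finset.sum_congr rfl hlowI]
    ring
  have hrest : ∑ j ∈ Finset.univ \ I, lowq M e p z j = ∑ j ∈ Finset.univ \ I,
      (((z j).val % eu M e p j : ℕ) : ℚ) * wt (eu M e p) (M / p) j :=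
    Finset.sum_congr rfl fun j _ => rfl
  have hnf : ((M / p : ℕ) : ℚ) - wt (eu M e p) (M / p) i₀ ≤
      ∑ j ∈ Finset.univ \ Ful M e p, lowq M e p z j := by
    rw [← hlowI i₀ hi₀I]
    exact Finset.single_le_sum (f := fun j => lowq M e p z j)
      (fun j _ => lowq_nonneg h hp hpM z j)
      (Finset.mem_sdiff.2 ⟨Finset.mem_univ _, hi₀⟩)
  have hw0 : (wt (eu M e p) (M / p) i₀ : ℚ) * e i₀ = ((M / p : ℕ) : ℚ) := by
    have h1 : wt (eu M e p) (M / p) i₀ * eu M e p i₀ = M / p := by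
      rw [wt_eu h hp hpM, Nat.div_mul_cancel (eu_dvd' h hp hpM i₀)]
    rw [he0] at h1
    exact_mod_cast h1
  have he2 : (2 : ℚ) ≤ e i₀ := by exact_mod_cast h.two i₀
  have hw1 : (1 : ℚ) ≤ (wt (eu M e p) (M / p) i₀ : ℚ) := by
    have h1 : wt (eu M e p) (M / p) i₀ ≠ 0 := by
      intro h0
      rw [h0, Nat.cast_zero, zero_mul] at hw0
      exact hM'.ne hw0
    exact_mod_cast Nat.one_le_iff_ne_zero.2 h1
  rw [he0] at hV
  rw [hall, hrest]
  obtain ⟨w, hw⟩ : ∃ w : Fin r → ℚ, ∀ i, w i = (wt (eu M e p) (M / p) i : ℚ) :=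
    ⟨fun i => (wt (eu M e p) (M / p) i : ℚ), fun i => rfl⟩
  have hcard : 1 ≤ I.card := Finset.card_pos.2 ⟨i₀, hi₀I⟩
  have hsum3 : ∑ i ∈ I, (((M / p : ℕ) : ℚ) - wt (eu M e p) (M / p) i)
      + ∑ i ∈ I.erase i₀, ((wt (eu M e p) (M / p) i : ℚ) - 1)
      = (((M / p : ℕ) : ℚ) - wt (eu M e p) (M / p) i₀)
        + ((I.card : ℚ) - 1) * (((M / p : ℕ) : ℚ) - 1) := by
    rw [← Finset.add_sum_erase I (fun i => ((M / p : ℕ) : ℚ) - wt (eu M e p) (M / p) i) hi₀I,
      add_assoc, ← Finset.sum_add_distrib,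
      Finset.sum_congr rfl fun i _ => (by ring : ((M / p : ℕ) : ℚ) - wt (eu M e p) (M / p) i
        + ((wt (eu M e p) (M / p) i : ℚ) - 1) = ((M / p : ℕ) : ℚ) - 1),
      Finset.sum_const, nsmul_eq_mul, Finset.card_erase_of_mem hi₀I,
      Nat.cast_sub hcard, Nat.cast_one]
  have hmain : 0 < (p - 1) * ((M / p : ℕ) : ℚ) - p * (wt (eu M e p) (M / p) i₀ : ℚ) - e i₀ + 3 := by
    rw [← hw0]
    generalize (wt (eu M e p) (M / p) i₀ : ℚ) = w₀ at *
    have h1 : 0 ≤ (w₀ - 1) * ((e i₀ : ℚ) - 2) := mul_nonneg (by linarith) (by linarith)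
    have h2 : 0 ≤ w₀ * (((p : ℚ) - 2) * (e i₀ - 1)) :=
      mul_nonneg (by linarith) (mul_nonneg (by linarith) (by linarith))
    linarith
  have hp1 : (0 : ℚ) ≤ (p : ℚ) - 1 := by linarith
  have hnf' := mul_le_mul_of_nonneg_left hnf hp1
  rw [hMq]
  linarith

end

section
variable {n r : ℕ} {R : AddSubgroup (ℤ × (Fin r → ℤ))} {δ e : Fin r → ℕ}

theorem frm_data (h : Dat R δ e n) (hδ : ∀ i, δ i = 1) {M : ℕ} (hM : M ≠ 0)
    (hd : ∀ j, e j ∣ M * δ j) (hF : ∀ p : ℕ, p.Prime → p ∣ M →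
      n + 1 ≤ (Finset.univ.filter (fun j => p ^ M.factorization p ∣ e j)).card)
    (c : ℤ × (Fin r → ℤ)) (hβ : -((n : ℚ) + 1) * M + n + 2 ≤ M * bet δ e c)
    (f : Fin r → MvPolynomial (Fin (n + 1)) ℂ) (hf : ∀ i, (f i).IsHomogeneous (δ i))
    (hfew : ∀ (x : Fin (n + 1) → ℂ) (z : Fin r → ℂ), x ≠ 0 → (∀ i, z i ^ e i = eval x (f i)) →
      (Finset.univ.filter (fun i => z i = 0)).card ≤ n)
    {p : ℕ} (hp : p.Prime) (hpM : p ∣ M) (hFc : (Ful M e p).card = n + 1)
    (i₀ : Fin r) (hi₀ : i₀ ∉ Ful M e p) (J : Finset (Fin r)) (hJ : J.card + 1 ≤ n) :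
    ∃ (L : ℕ) (a : Fin r → ℕ), Frm R c e f (Ful M e p) p (eu M e p) L a ∧ ∀ i ∈ J, a i = 0 := by
  classical
  have hne := h.neZero
  have hC := cmb h hδ hM hd hF
  obtain ⟨z, hz, hzJ, hest⟩ := low_est hC hp hpM (x0 e c) J hJ i₀ hi₀
  obtain ⟨L₀, hL1, hL2⟩ := h.exists_L c z hz
  have hMpos : (0 : ℚ) < M := by exact_mod_cast Nat.pos_of_ne_zero hM
  have hM'0 := Mp_ne hC hp hpM
  have hM' : (0 : ℚ) < ((M / p : ℕ) : ℚ) := by exact_mod_cast Nat.pos_of_ne_zero hM'0
  have hMq : (M : ℚ) = p * ((M / p : ℕ) : ℚ) := by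
    have := Nat.mul_div_cancel' hpM
    exact_mod_cast this.symm
  obtain ⟨T, hT⟩ : ∃ T : Fin r → ℕ, ∀ j, T j = (z j).val / eu M e p j := ⟨_, fun j => rfl⟩
  -- the top digits are less than `p`
  have hTp : ∀ j ∈ Ful M e p, T j ≤ p - 1 := by
    intro j hj
    have h1 : T j < p := by
      rw [hT, Nat.div_lt_iff_lt_mul (eu_pos hC hp hpM j), ← eu_of_mem hC hp hpM hj]
      exact ZMod.val_lt _
    omega
  -- the degree of the form in the powers
  obtain ⟨L', hL'⟩ : ∃ L' : ℤ, L' = p * L₀ + ∑ j ∈ Ful M e p, ((p : ℤ) - 1 - T j) := ⟨_, rfl⟩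
  have hLpos : 1 ≤ L' := by
    have hsplit := val_split hC hp hpM z
    have hval := val_eq h hδ hd z
    have h1 : ((M / p : ℕ) : ℚ) * L' = M * bet δ e c
        + (∑ j, lowq M e p z j + (p - 1) * ∑ j ∈ Finset.univ \ Ful M e p, lowq M e p z j)
        + ((n : ℚ) + 1) * (p - 1) * ((M / p : ℕ) : ℚ) := by
      have h2 : (M : ℚ) * L₀ = M * bet δ e c + Val M e z := by
        rw [hL2, mul_add, hval]
      have h3 : (L' : ℚ) = p * L₀ + (((n : ℚ) + 1) * (p - 1)
          - ∑ j ∈ Ful M e p, (((z j).val / eu M e p j : ℕ) : ℚ)) := by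
        rw [hL']
        push_cast
        rw [Finset.sum_sub_distrib, Finset.sum_const, hFc, nsmul_eq_mul]
        simp only [hT]
        push_cast
        ring
      rw [h3]
      rw [hsplit] at h2
      rw [hMq] at h2
      rw [hMq]
      linear_combination h2
    have h2 : (0 : ℚ) < ((M / p : ℕ) : ℚ) * L' := by
      rw [h1]
      linarith
    have h3 : (0 : ℚ) < L' := by
      by_contra hcon
      push Not at hcon
      nlinarith
    have h4 : (0 : ℤ) < L' := by exact_mod_cast h3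
    omega
  obtain ⟨L, hL⟩ : ∃ L : ℕ, (L' : ℤ) = (L : ℤ) + 1 := ⟨(L' - 1).toNat, by omega⟩
  have hmod : ∀ j, (z j).val % eu M e p j + 1 ≤ eu M e p j := fun j =>
    Nat.mod_lt _ (eu_pos hC hp hpM j)
  refine ⟨L, fun j => eu M e p j - 1 - (z j).val % eu M e p j, ?_, fun i hi => by
    simp only [hzJ i hi]; omega⟩
  have hlin : ∀ i, (f i).IsHomogeneous 1 := fun i => by
    have := hf i
    rwa [hδ i] at this
  refine ⟨fun i => Nat.pos_of_ne_zero (hne i).ne, hlin, ?_, fun j hj => eu_of_mem hC hp hpM hj,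
    fun i hi j hj hij => diff_mem h hδ hM hd hF (by omega) hp hpM hFc hi hj hij, ?_⟩
  · -- the linear forms are independent
    intro y hy
    by_contra hy0
    have hz : ∀ i, ∃ z : ℂ, z ^ e i = eval y (f i) := fun i =>
      IsAlgClosed.exists_pow_nat_eq _ (Nat.pos_of_ne_zero (hne i).ne)
    choose z hz using hz
    have h1 := hfew y z hy0 hz
    have h2 : Ful M e p ⊆ Finset.univ.filter (fun i => z i = 0) := by
      intro i hi
      rw [Finset.mem_filter]
      refine ⟨Finset.mem_univ i, ?_⟩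
      have h3 := hz i
      rw [hy i hi] at h3
      exact (pow_eq_zero_iff (hne i).ne).1 h3
    have h3 := Finset.card_le_card h2
    omega
  · -- the class
    obtain ⟨j₀, hj₀⟩ : (Ful M e p).Nonempty := by
      rw [← Finset.card_pos]
      omega
    refine ⟨j₀, hj₀, ?_⟩
    -- the exponents in terms of the digits
    have hexp : ∀ j, (aOf z j : ℤ) = ((eu M e p j - 1 - (z j).val % eu M e p j : ℕ) : ℤ)
        + (if j ∈ Ful M e p then (eu M e p j : ℤ) * ((p : ℤ) - 1 - T j) else 0) := by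
      intro j
      have h1 := Nat.mod_add_div (z j).val (eu M e p j)
      rw [← hT] at h1
      have h2 := hmod j
      have h3 := ZMod.val_lt (z j)
      have h4 : ((z j).val : ℤ) = (((z j).val % eu M e p j : ℕ) : ℤ) + (eu M e p j : ℤ) * T j := by
        exact_mod_cast h1.symm
      have h5 : (aOf z j : ℤ) = (e j : ℤ) - 1 - (z j).val := by
        rw [aOf]
        omega
      have h6 : ((eu M e p j - 1 - (z j).val % eu M e p j : ℕ) : ℤ)
          = (eu M e p j : ℤ) - 1 - (((z j).val % eu M e p j : ℕ) : ℤ) := by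
        omega
      rw [h5, h6, h4]
      by_cases hj : j ∈ Ful M e p
      · rw [if_pos hj]
        have h7 : (e j : ℤ) = p * eu M e p j := by exact_mod_cast eu_of_mem hC hp hpM hj
        rw [h7]
        ring
      · rw [if_neg hj]
        have h7 := eu_of_notMem hC hp hpM hj
        have h8 : T j = 0 := by
          rw [hT, h7]
          exact Nat.div_eq_of_lt (ZMod.val_lt _)
        rw [h8, h7]
        push_cast
        ring
    set σ : ℤ × (Fin r → ℤ) := ((c.1 - L₀, fun i => c.2 i - (aOf z i : ℤ)) : ℤ × (Fin r → ℤ))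
      + ∑ j ∈ (Ful M e p).erase j₀, ((p : ℤ) - 1 - T j) •
        ((0, Pi.single j (eu M e p j : ℤ) - Pi.single j₀ (eu M e p j₀ : ℤ)) : ℤ × (Fin r → ℤ))
      - L₀ • ((-(δ j₀ : ℤ), Pi.single j₀ (e j₀ : ℤ)) : ℤ × (Fin r → ℤ)) with hσ
    have hσR : σ ∈ R := by
      refine R.sub_mem (R.add_mem hL1 (R.sum_mem fun j hj => R.zsmul_mem ?_ _))
        (R.zsmul_mem (h.rel j₀) _)
      exact diff_mem h hδ hM hd hF (by omega) hp hpM hFc (Finset.mem_of_mem_erase hj) hj₀
        (Finset.ne_of_mem_erase hj)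
    have hgoal : ((c.1, fun i => c.2 i - ((eu M e p i - 1 - (z i).val % eu M e p i : ℕ) : ℤ) -
        (if i = j₀ then (((L + 1) * eu M e p j₀ : ℕ) : ℤ) else 0)) : ℤ × (Fin r → ℤ)) = σ := by
      refine Prod.ext ?_ ?_
      · rw [hσ]
        simp [Prod.fst_sum, hδ j₀]
      · funext i
        rw [hσ, Prod.snd_sub, Prod.snd_add, Pi.sub_apply, Pi.add_apply, Prod.snd_sum,
          Finset.sum_apply]
        simp only [Prod.smul_snd, Pi.smul_apply, Pi.sub_apply, smul_eq_mul]
        rw [hexp i]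
        have hsumL : (L : ℤ) + 1 = p * L₀ + ∑ j ∈ Ful M e p, ((p : ℤ) - 1 - T j) := by
          rw [← hL, hL']
        have he0 : (e j₀ : ℤ) = p * eu M e p j₀ := by exact_mod_cast eu_of_mem hC hp hpM hj₀
        by_cases hi : i = j₀
        · subst hi
          rw [if_pos rfl, if_pos hj₀, Pi.single_eq_same, Pi.single_eq_same]
          have h1 : ∑ j ∈ (Ful M e p).erase i, ((p : ℤ) - 1 - T j) *
              ((Pi.single j (eu M e p j : ℤ) : Fin r → ℤ) i - (eu M e p i : ℤ))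
              = -(∑ j ∈ (Ful M e p).erase i, ((p : ℤ) - 1 - T j)) * (eu M e p i : ℤ) := by
            rw [neg_mul, Finset.sum_mul, ← Finset.sum_neg_distrib]
            refine Finset.sum_congr rfl fun j hj => ?_
            rw [Pi.single_eq_of_ne (Finset.ne_of_mem_erase hj).symm]
            ring
          rw [h1]
          rw [← Finset.add_sum_erase _ _ hj₀] at hsumL
          push_cast
          rw [he0]
          linear_combination -(eu M e p i : ℤ) * hsumL
        · rw [if_neg hi, Pi.single_eq_of_ne hi, Pi.single_eq_of_ne hi]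
          by_cases hiF : i ∈ Ful M e p
          · rw [if_pos hiF, Finset.sum_eq_single i]
            · rw [Pi.single_eq_same]
              ring
            · intro j _ hji
              rw [Pi.single_eq_of_ne hji.symm]
              ring
            · intro h2
              exact absurd (Finset.mem_erase.2 ⟨hi, hiF⟩) h2
          · rw [if_neg hiF, Finset.sum_eq_zero]
            · ring
            · intro j hj
              rw [Pi.single_eq_of_ne (by
                rintro rfl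
                exact hiF (Finset.mem_of_mem_erase hj))]
              ring
    rw [hgoal]
    exact hσR

end

end Pool.Agent.K3h47.HY
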