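import Pool.Agent.K3h47.HY.Fdat
import Pool.Agent.K3h47.HY.Equal
import Pool.Agent.K3h57.HY.AVC
import Pool.Agent.K3h10.HY.Spj
import Pool.Agent.K3h51.HY.Spk3
import Pool.Agent.K3h33.HY.All

/-! All abelian covers of projective space which are branched along hyperplanes. -/

set_option autoImplicit false
set_option linter.unusedSectionVars false

namespace Pool.Agent.K3h47.HY

open MvPolynomial Pool.Agent.K3h47.FU

theorem t_ALL' : S_ALL :=
  Pool.Agent.K3h33.HY.t_ALL t_UP0 t_UP1 Pool.Agent.K3h57.HY.t_AVC Pool.Agent.K3h10.HY.t_SPJ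
    Pool.Agent.K3h51.HY.t_SPK1 Pool.Agent.K3h51.HY.t_SPK2 Pool.Agent.K3h51.HY.t_SPK3

variable {n r : ℕ} {R : AddSubgroup (ℤ × (Fin r → ℤ))} {δ e : Fin r → ℕ}

theorem sem (hFRP : S_FRP) (hFRT : S_FRT) (hEQP : S_EQP) (hEQT : S_EQT)
    (h : Dat R δ e n) (hδ : ∀ i, δ i = 1) {M : ℕ} (hM : M ≠ 0) (hM1 : M ≠ 1)
    (hd : ∀ j, e j ∣ M * δ j) (hF : ∀ p : ℕ, p.Prime → p ∣ M →
      n + 1 ≤ (Finset.univ.filter (fun j => p ^ M.factorization p ∣ e j)).card)
    (c : ℤ × (Fin r → ℤ)) (hβ : -((n : ℚ) + 1) * M + n + 2 ≤ M * bet δ e c)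
    (f : Fin r → MvPolynomial (Fin (n + 1)) ℂ) (hf : ∀ i, (f i).IsHomogeneous (δ i))
    (hfew : ∀ (x : Fin (n + 1) → ℂ) (z : Fin r → ℂ), x ≠ 0 → (∀ i, z i ^ e i = eval x (f i)) →
      (Finset.univ.filter (fun i => z i = 0)).card ≤ n) (hn : 2 ≤ n) :
    SemSep n R e c f ∧ SemTan n R e c f := by
  classical
  have hne := h.neZero
  have hC := cmb h hδ hM hd hF
  obtain ⟨p₀, hp₀, hpM₀⟩ := Nat.exists_prime_and_dvd hM1
  have hFr : ∀ p, (Ful M e p).card ≤ r := by
    intro p
    have := Finset.card_le_univ (Ful M e p)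
    rwa [Fintype.card_fin] at this
  have hr1 : n + 1 ≤ r := (hC.full p₀ hp₀ hpM₀).trans (hFr p₀)
  rcases Nat.lt_or_ge r (n + 2) with hr2 | hr2
  · -- `n + 1` hyperplanes
    have he := all_eq hC (fun p hp hpM => by
      refine Finset.eq_univ_of_card _ ?_
      rw [Fintype.card_fin]
      have := hC.full p hp hpM
      have := hFr p
      omega)
    obtain ⟨L, hL⟩ := frm_all h hδ hM he (by omega) c hβ f hf hfew
    exact ⟨fun x x' z z' _ _ hxx hz hz' _ =>
        hFRP n r R c e f Finset.univ M (fun _ => 1) L (fun _ => 0) hL x x' z z' hxx hz hz'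
          (fun _ _ => rfl),
      fun x u z v hx hxu hz hv _ =>
        hFRT n r R c e f Finset.univ M (fun _ => 1) L (fun _ => 0) hL x u z v hx hxu hz hv
          (fun _ _ => rfl)⟩
  by_cases hcrit : ∃ p : ℕ, p.Prime ∧ p ∣ M ∧ (Ful M e p).card = n + 1
  · -- the critical case
    obtain ⟨p, hp, hpM, hFc⟩ := hcrit
    obtain ⟨i₀, hi₀⟩ : ∃ i₀, i₀ ∉ Ful M e p := by
      by_contra hcon
      push Not at hcon
      have h1 : Ful M e p = Finset.univ := Finset.eq_univ_iff_forall.2 hcon
      rw [h1, Finset.card_univ, Fintype.card_fin] at hFc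
      omega
    refine ⟨?_, ?_⟩
    · intro x x' z z' _ _ hxx hz hz' hI
      obtain ⟨L, a, hL, ha⟩ := frm_data h hδ hM hd hF c hβ f hf hfew hp hpM hFc i₀ hi₀ _ hI
      exact hFRP n r R c e f _ p _ L a hL x x' z z' hxx hz hz' (fun i hi => ha i (by simp [hi]))
    · intro x u z v hx hxu hz hv hI
      obtain ⟨L, a, hL, ha⟩ := frm_data h hδ hM hd hF c hβ f hf hfew hp hpM hFc i₀ hi₀ _ hI
      exact hFRT n r R c e f _ p _ L a hL x u z v hx hxu hz hv (fun i hi => ha i (by simp [hi]))
  have hall : ∀ p : ℕ, p.Prime → p ∣ M → n + 2 ≤ (Ful M e p).card := by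
    intro p hp hpM
    have h1 := hC.full p hp hpM
    have h2 : (Ful M e p).card ≠ n + 1 := fun h2 => hcrit ⟨p, hp, hpM, h2⟩
    omega
  rcases Nat.lt_or_ge r (n + 3) with hr3 | hr3
  · -- `n + 2` hyperplanes
    have hr : r = n + 2 := by omega
    have he := all_eq hC (fun p hp hpM => by
      refine Finset.eq_univ_of_card _ ?_
      rw [Fintype.card_fin]
      have := hall p hp hpM
      have := hFr p
      omega)
    obtain ⟨k, hk⟩ := eq_data h hδ hM he hr c hβ
    have hlin : ∀ i, (f i).IsHomogeneous 1 := fun i => by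
      have := hf i
      rwa [hδ i] at this
    have hind : ∀ y : Fin (n + 1) → ℂ, (∀ i, eval y (f i) = 0) → y = 0 := by
      intro y hy
      by_contra hy0
      have h1 := hfew y (fun _ => 0) hy0 (fun i => by rw [hy i, zero_pow (hne i).ne])
      simp at h1
      omega
    have hcard : ∀ z : Fin r → ℂ, (Finset.univ.filter (fun i => z i ≠ 0)).card
        + (Finset.univ.filter (fun i => z i = 0)).card = r := by
      intro z
      have := Finset.card_filter_add_card_filter_not (s := (Finset.univ : Finset (Fin r)))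
        (fun i => z i = 0)
      rw [Finset.card_univ, Fintype.card_fin] at this
      rw [add_comm]
      exact this
    refine ⟨?_, ?_⟩
    · intro x x' z z' hx _ hxx hz hz' hI
      have h1 := hfew x z hx hz
      have h2 := hcard z
      have h3 := hcard z'
      exact hEQP n r R c M k f hk hlin hind x x' z z' hxx (fun i => by rw [← hz i, he i])
        (fun i => by rw [← hz' i, he i]) (by omega) (by omega)
    · intro x u z v hx hxu hz hv hI
      have h3 := hcard z
      exact hEQT n r R c M k f hk hlin hind x u z v hxu (fun i => by rw [← hz i, he i])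
        (fun i => by rw [← hv i, he i]) (by omega)
  · -- at least `n + 3` hyperplanes
    have hmon : ∀ I : Finset (Fin r), I.card + 1 ≤ n →
        ∃ (L : ℤ) (a : Fin r → ℕ), 1 ≤ L ∧ (∀ i ∈ I, a i = 0) ∧
          ((c.1 - L, fun i => c.2 i - (a i : ℤ)) : ℤ × (Fin r → ℤ)) ∈ R := by
      intro I hI
      obtain ⟨J, hIJ, hJc⟩ := Finset.exists_superset_card_eq (s := I) (n := n - 1) (by omega) (by
        rw [Fintype.card_fin]; omega)
      obtain ⟨L, a, hL, ha, hR⟩ := big_mon h hδ hM hd c hβ J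
        (t_ALL' n r M e (Lam R e) hC hall hn hr3 J (x0 e c) (by omega))
      exact ⟨L, a, hL, fun i hi => ha i (hIJ hi), hR⟩
    exact ⟨semSep_of_mono f hmon, semTan_of_mono f hmon⟩

end Pool.Agent.K3h47.HY
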