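import Pool.Agent.K3h47.HY.Final
import Pool.Agent.K3h51.HY.Tri2
import Pool.Agent.K3h87.HZ.Tri3
import Pool.Agent.K3h41.HZ.Base
import Pool.Agent.K3h41.HZ.Eqs

/-! All abelian covers of projective space which are branched along hyperplanes. -/

set_option autoImplicit false

namespace Pool.Agent.K3h47.HY

open MvPolynomial Pool.Agent.K3h47.FU

variable {n r : ℕ} {R : AddSubgroup (ℤ × (Fin r → ℤ))} {δ e : Fin r → ℕ}

theorem t_TRI3' : S_TRI3 := Pool.Agent.K3h87.HZ.t_TRI3 Pool.Agent.K3h51.HY.t_TRI2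

theorem sem' (h : Dat R δ e n) (hδ : ∀ i, δ i = 1) {M : ℕ} (hM : M ≠ 0) (hM1 : M ≠ 1)
    (hd : ∀ j, e j ∣ M * δ j) (hF : ∀ p : ℕ, p.Prime → p ∣ M →
      n + 1 ≤ (Finset.univ.filter (fun j => p ^ M.factorization p ∣ e j)).card)
    (c : ℤ × (Fin r → ℤ)) (hβ : -((n : ℚ) + 1) * M + n + 2 ≤ M * bet δ e c)
    (f : Fin r → MvPolynomial (Fin (n + 1)) ℂ) (hf : ∀ i, (f i).IsHomogeneous (δ i))
    (hfew : ∀ (x : Fin (n + 1) → ℂ) (z : Fin r → ℂ), x ≠ 0 → (∀ i, z i ^ e i = eval x (f i)) →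
      (Finset.univ.filter (fun i => z i = 0)).card ≤ n) (hn : 2 ≤ n) :
    SemSep n R e c f ∧ SemTan n R e c f :=
  sem Pool.Agent.K3h41.HZ.t_FRP Pool.Agent.K3h41.HZ.t_FRT
    (Pool.Agent.K3h41.HZ.t_EQP t_TRI3') (Pool.Agent.K3h41.HZ.t_EQT t_TRI3')
    h hδ hM hM1 hd hF c hβ f hf hfew hn

end Pool.Agent.K3h47.HY
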