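import Mathlib

/-! Statements: large elements in cosets of subgroups of products of cyclic groups. -/

set_option autoImplicit false

namespace Pool.Agent.K3h47.HY

/-- the indices at which the full power of `p` divides `e` -/
def Ful {r : ℕ} (M : ℕ) (e : Fin r → ℕ) (p : ℕ) : Finset (Fin r) :=
  Finset.univ.filter (fun j => p ^ M.factorization p ∣ e j)

/-- the standing assumptions -/
structure Cmb (n r M : ℕ) (e : Fin r → ℕ) (Λ : AddSubgroup (∀ i, ZMod (e i))) : Prop where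
  M0 : M ≠ 0
  two : ∀ i, 2 ≤ e i
  dvd : ∀ i, e i ∣ M
  sur : ∀ I : Finset (Fin r), I.card ≤ n → ∀ i ∈ I,
    ∃ ρ ∈ Λ, ρ i = 1 ∧ ∀ i' ∈ I, i' ≠ i → ρ i' = 0
  deg : ∀ ρ ∈ Λ, M ∣ ∑ i, (ρ i).val * (M / e i)
  full : ∀ p : ℕ, p.Prime → p ∣ M → n + 1 ≤ (Ful M e p).card

/-- the value of an element -/
def Val {r : ℕ} (M : ℕ) (e : Fin r → ℕ) (y : ∀ i, ZMod (e i)) : ℕ :=
  ∑ i, (y i).val * (M / e i)

/-- the coset of `x` contains an element with maximal entries on `J` and large value -/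
def Big (n : ℕ) {r : ℕ} (M : ℕ) (e : Fin r → ℕ) (Λ : AddSubgroup (∀ i, ZMod (e i)))
    (J : Finset (Fin r)) (x : ∀ i, ZMod (e i)) : Prop :=
  ∃ y, y - x ∈ Λ ∧ (∀ i ∈ J, (y i).val = e i - 1) ∧ (n + 1) * M < Val M e y + (n + 2)

/-- AVG (proved below) -/
theorem exists_ge_avg {A : Type*} [AddCommGroup A] (G : AddSubgroup A) [Finite G] {κ : Type*}
    (T : Finset κ) (φ : κ → A → ℚ) (a : κ → ℚ)
    (hφ : ∀ t ∈ T, ∃ g ∈ G, ∃ N : ℕ, 0 < N ∧
      ∀ x : A, (N : ℚ) * a t ≤ ∑ c ∈ Finset.range N, φ t (x + c • g)) (z : A) :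
    ∃ x ∈ G, ∑ t ∈ T, a t ≤ ∑ t ∈ T, φ t (z + x) := by
  classical
  haveI : Fintype G := Fintype.ofFinite G
  have hpos : 0 < Fintype.card G := Fintype.card_pos
  have key : ∀ t ∈ T, (Fintype.card G : ℚ) * a t ≤ ∑ x : G, φ t (z + x) := by
    intro t ht
    obtain ⟨g, hg, N, hN, h⟩ := hφ t ht
    have h1 : ∀ c : ℕ, ∑ x : G, φ t (z + x) = ∑ x : G, φ t (z + x + c • g) := by
      intro c
      rw [← Equiv.sum_comp (Equiv.addRight (c • (⟨g, hg⟩ : G)))]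
      refine Finset.sum_congr rfl fun x _ => ?_
      congr 1
      rw [Equiv.coe_addRight, AddSubgroup.coe_add, AddSubgroup.coe_nsmul, add_assoc]
    have h2 : (N : ℚ) * ∑ x : G, φ t (z + x)
        = ∑ x : G, ∑ c ∈ Finset.range N, φ t (z + x + c • g) := by
      rw [Finset.sum_comm, Finset.sum_congr rfl fun c _ => (h1 c).symm, Finset.sum_const,
        Finset.card_range, nsmul_eq_mul]
    have h3 : (Fintype.card G : ℚ) * (N * a t) ≤
        ∑ x : G, ∑ c ∈ Finset.range N, φ t (z + x + c • g) := by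
      rw [← Finset.card_univ, ← nsmul_eq_mul, ← Finset.sum_const]
      exact Finset.sum_le_sum fun x _ => h _
    rw [← h2] at h3
    have hN' : (0 : ℚ) < N := by exact_mod_cast hN
    have h4 : (N : ℚ) * (Fintype.card G * a t) ≤ N * ∑ x : G, φ t (z + x) := by linarith
    exact le_of_mul_le_mul_left h4 hN'
  have hsum : ∑ x : G, ∑ t ∈ T, a t ≤ ∑ x : G, ∑ t ∈ T, φ t (z + x) := by
    rw [Finset.sum_const, Finset.card_univ, nsmul_eq_mul, Finset.sum_comm, Finset.mul_sum]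
    exact Finset.sum_le_sum key
  obtain ⟨x, _, hx⟩ := Finset.exists_le_of_sum_le Finset.univ_nonempty hsum
  exact ⟨x.1, x.2, hx⟩

/-- All entries divisible by the full power of `p`, many coordinates. -/
def S_UP0 : Prop := ∀ (n r M : ℕ) (e : Fin r → ℕ) (Λ : AddSubgroup (∀ i, ZMod (e i))),
  Cmb n r M e Λ → 1 ≤ n → n + 4 ≤ r → ∀ p : ℕ, p.Prime → p ∣ M → Ful M e p = Finset.univ →
  ∀ (J : Finset (Fin r)) (x : ∀ i, ZMod (e i)), J.card + 1 = n → Big n M e Λ J x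

/-- There is an entry not divisible by the full power of `p`. -/
def S_UP1 : Prop := ∀ (n r M : ℕ) (e : Fin r → ℕ) (Λ : AddSubgroup (∀ i, ZMod (e i))),
  Cmb n r M e Λ → ∀ p : ℕ, p.Prime → p ∣ M → n + 2 ≤ (Ful M e p).card →
  ∀ (i₀ : Fin r) (J : Finset (Fin r)) (x : ∀ i, ZMod (e i)), i₀ ∉ Ful M e p → J.card + 1 = n →
  (n + 3 ≤ (Ful M e p).card ∨ p = 2 ∨ (∃ j ∈ J, j ∉ Ful M e p ∧ j ≠ i₀) ∨ (3 ≤ e i₀ ∧ 5 ≤ p)) →
  Big n M e Λ J x

/-- The average is large. -/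
def S_AVC : Prop := ∀ (n r M : ℕ) (e : Fin r → ℕ) (Λ : AddSubgroup (∀ i, ZMod (e i))),
  Cmb n r M e Λ → ∀ (J : Finset (Fin r)) (x : ∀ i, ZMod (e i)), J.card + 1 = n →
  2 * (n + 1) * M < 2 * ∑ i ∈ J, (M - M / e i) + ∑ i ∈ Finset.univ \ J, (M - M / e i)
    + 2 * (n + 2) → Big n M e Λ J x

/-- Special case: the small entry is in `J`. -/
def S_SPJ : Prop := ∀ (n r M : ℕ) (e : Fin r → ℕ) (Λ : AddSubgroup (∀ i, ZMod (e i))),
  Cmb n r M e Λ → r = n + 3 → ∀ (i₀ : Fin r) (ν : ℕ), M = e i₀ * ν → 2 ≤ ν →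
  (∀ j, j ≠ i₀ → e j = M) → ∀ (J : Finset (Fin r)) (x : ∀ i, ZMod (e i)), J.card + 1 = n →
  i₀ ∈ J → Big n M e Λ J x

/-- Special case: the small entry is not in `J`; not too small or too large. -/
def S_SPK1 : Prop := ∀ (n r M : ℕ) (e : Fin r → ℕ) (Λ : AddSubgroup (∀ i, ZMod (e i))),
  Cmb n r M e Λ → r = n + 3 → ∀ (i₀ : Fin r) (ν : ℕ), M = e i₀ * ν → 4 ≤ ν → 3 ≤ e i₀ →
  (∀ j, j ≠ i₀ → e j = M) → ∀ (J : Finset (Fin r)) (x : ∀ i, ZMod (e i)), J.card + 1 = n →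
  i₀ ∉ J → Big n M e Λ J x

/-- Special case: the small entry is `2` and not in `J`. -/
def S_SPK2 : Prop := ∀ (n r M : ℕ) (e : Fin r → ℕ) (Λ : AddSubgroup (∀ i, ZMod (e i))),
  Cmb n r M e Λ → 2 ≤ n → r = n + 3 → ∀ (i₀ : Fin r) (ν : ℕ), M = 2 * ν → e i₀ = 2 →
  (∀ j, j ≠ i₀ → e j = M) → ∀ (J : Finset (Fin r)) (x : ∀ i, ZMod (e i)), J.card + 1 = n →
  i₀ ∉ J → Big n M e Λ J x

/-- Special case: the small entry is `M / 3` and not in `J`. -/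
def S_SPK3 : Prop := ∀ (n r M : ℕ) (e : Fin r → ℕ) (Λ : AddSubgroup (∀ i, ZMod (e i))),
  Cmb n r M e Λ → 2 ≤ n → r = n + 3 → ∀ (i₀ : Fin r), M = 3 * e i₀ →
  (∀ j, j ≠ i₀ → e j = M) → ∀ (J : Finset (Fin r)) (x : ∀ i, ZMod (e i)), J.card + 1 = n →
  i₀ ∉ J → Big n M e Λ J x

/-- The result of the combinatorial part. -/
def S_ALL : Prop := ∀ (n r M : ℕ) (e : Fin r → ℕ) (Λ : AddSubgroup (∀ i, ZMod (e i))),
  Cmb n r M e Λ → (∀ p : ℕ, p.Prime → p ∣ M → n + 2 ≤ (Ful M e p).card) → 2 ≤ n → n + 3 ≤ r →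
  ∀ (J : Finset (Fin r)) (x : ∀ i, ZMod (e i)), J.card + 1 = n → Big n M e Λ J x

/-- If exactly `n + 1` entries are divisible by the full power of `p`, the elements of order `p`
supported there are all the elements allowed by the degree. -/
def S_FZ : Prop := ∀ (n r M : ℕ) (e : Fin r → ℕ) (Λ : AddSubgroup (∀ i, ZMod (e i))),
  Cmb n r M e Λ → 1 ≤ n → ∀ p : ℕ, p.Prime → p ∣ M → (Ful M e p).card = n + 1 →
  ∀ i ∈ Ful M e p, ∀ j ∈ Ful M e p, i ≠ j →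
  (Pi.single i ((e i / p : ℕ) : ZMod (e i)) - Pi.single j ((e j / p : ℕ) : ZMod (e j)) :
    ∀ i, ZMod (e i)) ∈ Λ

end Pool.Agent.K3h47.HY
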