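import Pool.Agent.K3h47.HY.Stm
import Pool.Agent.K3h47.FU.EE2

/-! Splitting off the top `p`-digits. -/

set_option autoImplicit false
set_option linter.unusedSectionVars false

namespace Pool.Agent.K3h47.HY

open Pool.Agent.K3h47.FU

/-- adding a multiple of `E` in `ZMod (p * E)` -/
theorem val_shift {p E N : ℕ} (hN : N = p * E) (hE : 0 < E) [NeZero N] (x : ZMod N) (w : ℕ) :
    (x + ((w * E : ℕ) : ZMod N)).val = x.val % E + E * ((x.val / E + w) % p) := by
  have h1 : x + ((w * E : ℕ) : ZMod N) = ((x.val + w * E : ℕ) : ZMod N) := by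
    rw [Nat.cast_add x.val, ZMod.natCast_zmod_val]
  have h2 : ∀ X : ℕ, X % N = X % E + E * (X / E % p) := fun X => by
    rw [hN, mul_comm p E, Nat.mod_mul]
  rw [h1, ZMod.val_natCast, h2, Nat.add_mul_mod_self_right, Nat.add_mul_div_right _ _ hE]

theorem val_shift_mod {p E N : ℕ} (hN : N = p * E) (hE : 0 < E) [NeZero N] (x : ZMod N) (w : ℕ) :
    (x + ((w * E : ℕ) : ZMod N)).val % E = x.val % E := by
  rw [val_shift hN hE, Nat.add_mul_mod_self_left, Nat.mod_mod]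

theorem val_shift_div {p E N : ℕ} (hN : N = p * E) (hE : 0 < E) [NeZero N] (x : ZMod N) (w : ℕ) :
    (x + ((w * E : ℕ) : ZMod N)).val / E = (x.val / E + w) % p := by
  rw [val_shift hN hE, Nat.add_mul_div_left _ _ hE, Nat.div_eq_of_lt (Nat.mod_lt _ hE), zero_add]

/-- the digits `(d + c u) % p`, `c < p`, for `u` prime to `p` -/
theorem digit_bij {p : ℕ} (hp : p.Prime) {u : ℕ} (hu : ¬ p ∣ u) (d : ℕ) :
    ∀ k < p, ∃ c < p, (d + c * u) % p = k := by
  intro k hk
  have : Fact p.Prime := ⟨hp⟩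
  have hu0 : (u : ZMod p) ≠ 0 := by
    rw [Ne, ZMod.natCast_eq_zero_iff]
    exact hu
  refine ⟨(((k : ZMod p) - d) / u).val, ZMod.val_lt _, ?_⟩
  have h1 : ((d + (((k : ZMod p) - d) / u).val * u : ℕ) : ZMod p) = (k : ZMod p) := by
    rw [Nat.cast_add, Nat.cast_mul, ZMod.natCast_zmod_val, div_mul_cancel₀ _ hu0]
    ring
  rw [ZMod.natCast_eq_natCast_iff'] at h1
  rw [h1, Nat.mod_eq_of_lt hk]

theorem digit_sum {p : ℕ} (hp : p.Prime) {u : ℕ} (hu : ¬ p ∣ u) (d : ℕ) :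
    ∑ c ∈ Finset.range p, (((d + c * u) % p : ℕ) : ℚ) = p * ((p - 1) / 2) := by
  have h1 : (Finset.range p).image (fun c => (d + c * u) % p) = Finset.range p := by
    ext k
    rw [Finset.mem_image]
    constructor
    · rintro ⟨c, _, rfl⟩
      exact Finset.mem_range.2 (Nat.mod_lt _ hp.pos)
    · intro hk
      obtain ⟨c, hc, h⟩ := digit_bij hp hu d k (Finset.mem_range.1 hk)
      exact ⟨c, Finset.mem_range.2 hc, h⟩
  have hinj : Set.InjOn (fun c => (d + c * u) % p) (Finset.range p) := by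
    rw [← Finset.card_image_iff, h1]
  have h2 : ∑ c ∈ Finset.range p, (((d + c * u) % p : ℕ) : ℚ)
      = ∑ k ∈ Finset.range p, (k : ℚ) := by
    conv_rhs => rw [← h1]
    rw [Finset.sum_image hinj]
  rw [h2]
  have h3 := Finset.sum_range_id_mul_two p
  have h4 : ((∑ i ∈ Finset.range p, i : ℕ) : ℚ) * 2 = p * ((p - 1 : ℕ) : ℚ) := by
    exact_mod_cast h3
  rw [Nat.cast_sub hp.one_lt.le, Nat.cast_one, Nat.cast_sum] at h4
  linarith

/-- the reduced indices -/
def eu {r : ℕ} (M : ℕ) (e : Fin r → ℕ) (p : ℕ) (j : Fin r) : ℕ :=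
  if p ^ M.factorization p ∣ e j then e j / p else e j

section
variable {n r M : ℕ} {e : Fin r → ℕ} {Λ : AddSubgroup (∀ i, ZMod (e i))} (h : Cmb n r M e Λ)
  {p : ℕ} (hp : p.Prime) (hpM : p ∣ M)
include h hp hpM

theorem e_pos (i : Fin r) : 0 < e i := by have := h.two i; omega

theorem v_pos : 0 < M.factorization p := hp.factorization_pos_of_dvd h.M0 hpM

theorem eu_of_mem {j : Fin r} (hj : j ∈ Ful M e p) : e j = p * eu M e p j := by
  have h1 : p ^ M.factorization p ∣ e j := (Finset.mem_filter.1 hj).2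
  rw [eu, if_pos h1, Nat.mul_div_cancel']
  exact (dvd_pow_self p (v_pos h hp hpM).ne').trans h1

theorem eu_of_notMem {j : Fin r} (hj : j ∉ Ful M e p) : eu M e p j = e j := by
  have h1 : ¬ p ^ M.factorization p ∣ e j := fun h2 =>
    hj (Finset.mem_filter.2 ⟨Finset.mem_univ _, h2⟩)
  rw [eu, if_neg h1]

theorem eu_dvd (j : Fin r) : eu M e p j ∣ e j := by
  by_cases hj : j ∈ Ful M e p
  · exact ⟨p, by rw [mul_comm]; exact eu_of_mem h hp hpM hj⟩
  · rw [eu_of_notMem h hp hpM hj]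

theorem eu_pos (j : Fin r) : 0 < eu M e p j :=
  Nat.pos_of_dvd_of_pos (eu_dvd h hp hpM j) (e_pos h hp hpM j)

theorem eu_dvd' (j : Fin r) : eu M e p j ∣ M / p := by
  by_cases hj : j ∈ Ful M e p
  · have h1 : p * eu M e p j ∣ p * (M / p) := by
      rw [← eu_of_mem h hp hpM hj, Nat.mul_div_cancel' hpM]
      exact h.dvd j
    exact Nat.dvd_of_mul_dvd_mul_left hp.pos h1
  · rw [eu_of_notMem h hp hpM hj]
    have h1 : ¬ p ^ M.factorization p ∣ e j := fun h2 =>
      hj (Finset.mem_filter.2 ⟨Finset.mem_univ _, h2⟩)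
    have hM' : M / p ≠ 0 := by
      have := Nat.mul_div_cancel' hpM
      intro h0
      rw [h0, mul_zero] at this
      exact h.M0 this.symm
    rw [← Nat.factorization_le_iff_dvd (e_pos h hp hpM j).ne' hM', Nat.factorization_div hpM]
    intro q
    have h2 := (Nat.factorization_le_iff_dvd (e_pos h hp hpM j).ne' h.M0).2 (h.dvd j) q
    rw [Finsupp.coe_tsub, Pi.sub_apply, hp.factorization]
    by_cases hq : q = p
    · subst hq
      rw [Finsupp.single_eq_same]
      have h3 : (e j).factorization q ≠ M.factorization q := by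
        intro h4
        apply h1
        rw [← h4]
        exact Nat.ordProj_dvd _ _
      omega
    · rw [Finsupp.single_eq_of_ne (by simpa using hq)]
      simpa using h2

theorem wt_eu (j : Fin r) : wt (eu M e p) (M / p) j = (M / p) / eu M e p j := by
  rw [wt, Nat.gcd_eq_right (eu_dvd' h hp hpM j)]

theorem wt_mem {j : Fin r} (hj : j ∈ Ful M e p) : wt (eu M e p) (M / p) j = M / e j := by
  rw [wt_eu h hp hpM, Nat.div_div_eq_div_mul, ← eu_of_mem h hp hpM hj]

theorem wt_notMem {j : Fin r} (hj : j ∉ Ful M e p) :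
    M / e j = p * wt (eu M e p) (M / p) j := by
  rw [wt_eu h hp hpM, eu_of_notMem h hp hpM hj]
  have h1 := eu_dvd' h hp hpM j
  rw [eu_of_notMem h hp hpM hj] at h1
  obtain ⟨t, ht⟩ := h1
  have h2 := Nat.mul_div_cancel' hpM
  rw [ht] at h2
  rw [ht, Nat.mul_div_cancel_left _ (e_pos h hp hpM j), ← h2]
  have h3 : p * (e j * t) = e j * (p * t) := by ring
  rw [h3, Nat.mul_div_cancel_left _ (e_pos h hp hpM j)]

/-- reduction -/
noncomputable def rd : (∀ i, ZMod (e i)) →+ (∀ i, ZMod (eu M e p i)) where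
  toFun y i := ZMod.castHom (eu_dvd h hp hpM i) (ZMod (eu M e p i)) (y i)
  map_zero' := by funext i; exact map_zero _
  map_add' a b := by funext i; exact map_add _ _ _

theorem rd_val (y : ∀ i, ZMod (e i)) (i : Fin r) :
    (rd h hp hpM y i).val = (y i).val % eu M e p i := by
  have : NeZero (e i) := ⟨(e_pos h hp hpM i).ne'⟩
  change (ZMod.castHom (eu_dvd h hp hpM i) (ZMod (eu M e p i)) (y i)).val = _
  rw [ZMod.castHom_apply, ZMod.cast_eq_val, ZMod.val_natCast]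

theorem sur_rd : ∀ I : Finset (Fin r), I.card ≤ n → ∀ i ∈ I,
    ∃ ρ ∈ Λ.map (rd h hp hpM), ρ i = 1 ∧ ∀ i' ∈ I, i' ≠ i → ρ i' = 0 := by
  intro I hI i hi
  obtain ⟨ρ, hρ, h1, h0⟩ := h.sur I hI i hi
  refine ⟨rd h hp hpM ρ, ⟨ρ, hρ, rfl⟩, ?_, fun i' hi' hne => ?_⟩
  · change ZMod.castHom (eu_dvd h hp hpM i) (ZMod (eu M e p i)) (ρ i) = 1
    rw [h1, map_one]
  · change ZMod.castHom (eu_dvd h hp hpM i') (ZMod (eu M e p i')) (ρ i') = 0
    rw [h0 i' hi' hne, map_zero]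

theorem full_rd : ∀ q : ℕ, q.Prime → q ∣ M / p →
    n + 1 ≤ (Finset.univ.filter (fun j => q ^ (M / p).factorization q ∣ eu M e p j)).card := by
  intro q hq hqM
  have hqM' : q ∣ M := hqM.trans (Nat.div_dvd_of_dvd hpM)
  refine (h.full q hq hqM').trans (Finset.card_le_card fun j hj => ?_)
  have h1 : q ^ M.factorization q ∣ e j := (Finset.mem_filter.1 hj).2
  rw [Finset.mem_filter]
  refine ⟨Finset.mem_univ j, ?_⟩
  rw [Nat.factorization_div hpM, Finsupp.coe_tsub, Pi.sub_apply, hp.factorization]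
  by_cases hqp : q = p
  · subst hqp
    rw [Finsupp.single_eq_same]
    have h2 := eu_of_mem h hp hpM hj
    rw [h2] at h1
    have h3 := v_pos h hp hpM
    obtain ⟨v, hv⟩ : ∃ v, M.factorization q = v + 1 := ⟨M.factorization q - 1, by omega⟩
    rw [hv, pow_succ, mul_comm] at h1
    rw [hv, Nat.add_sub_cancel]
    exact Nat.dvd_of_mul_dvd_mul_left hp.pos h1
  · rw [Finsupp.single_eq_of_ne (by simpa using hqp), Nat.sub_zero]
    by_cases hjp : j ∈ Ful M e p
    · rw [eu_of_mem h hp hpM hjp] at h1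
      exact (Nat.Coprime.pow_left _ ((Nat.coprime_primes hq hp).2 hqp)).dvd_of_dvd_mul_left h1
    · rwa [eu_of_notMem h hp hpM hjp]

theorem Mp_ne : M / p ≠ 0 := by
  have := Nat.mul_div_cancel' hpM
  intro h0
  rw [h0, mul_zero] at this
  exact h.M0 this.symm

/-- prescribed values -/
theorem exists_pre (x : ∀ i, ZMod (e i)) (I : Finset (Fin r)) (hI : I.card ≤ n)
    (b : ∀ i, ZMod (e i)) : ∃ z, z - x ∈ Λ ∧ ∀ i ∈ I, z i = b i := by
  classical
  have hne : ∀ i, NeZero (e i) := fun i => ⟨(e_pos h hp hpM i).ne'⟩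
  have h1 := h.sur I hI
  choose! ρ hρ hρ1 hρ0 using h1
  refine ⟨x + ∑ i ∈ I, (b i - x i).val • ρ i, ?_, ?_⟩
  · rw [add_sub_cancel_left]
    exact Λ.sum_mem fun i hi => Λ.nsmul_mem (hρ i hi) _
  · intro i hi
    rw [Pi.add_apply, Finset.sum_apply, Finset.sum_eq_single i]
    · rw [Pi.smul_apply, hρ1 i hi, nsmul_eq_mul, mul_one, ZMod.natCast_zmod_val]
      ring
    · intro j hj hji
      rw [Pi.smul_apply, hρ0 j hj i hi hji.symm, smul_zero]
    · intro h2
      exact absurd hi h2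

/-- the multiple `M / p` of an element -/
theorem rd_nsmul (x : ∀ i, ZMod (e i)) : rd h hp hpM ((M / p) • x) = 0 := by
  rw [map_nsmul]
  funext i
  rw [Pi.smul_apply, nsmul_eq_mul, (ZMod.natCast_eq_zero_iff _ _).2 (eu_dvd' h hp hpM i), zero_mul]
  rfl

theorem Mp_eq {j : Fin r} (hj : j ∈ Ful M e p) : M / p = (M / e j) * eu M e p j := by
  rw [← wt_mem h hp hpM hj, wt_eu h hp hpM, Nat.div_mul_cancel (eu_dvd' h hp hpM j)]

theorem not_dvd_W {j : Fin r} (hj : j ∈ Ful M e p) : ¬ p ∣ M / e j := by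
  intro h1
  have h2 : p ^ M.factorization p ∣ e j := (Finset.mem_filter.1 hj).2
  have h3 : p ^ M.factorization p * p ∣ e j * (M / e j) := mul_dvd_mul h2 h1
  rw [Nat.mul_div_cancel' (h.dvd j), ← pow_succ] at h3
  have h4 := (hp.pow_dvd_iff_le_factorization h.M0).1 h3
  omega

/-- choice of the top digits -/
theorem digits (z : ∀ i, ZMod (e i)) (B T : Finset (Fin r)) (hB : B ⊆ Ful M e p)
    (hBc : B.card + 1 ≤ n) (hT : T ⊆ Ful M e p) (hBT : Disjoint B T) :
    ∃ y, y - z ∈ Λ ∧ rd h hp hpM y = rd h hp hpM z ∧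
      (∀ i ∈ B, (y i).val / eu M e p i = p - 1) ∧
      (T.card : ℚ) * ((p - 1) / 2) ≤ ∑ t ∈ T, (((y t).val / eu M e p t : ℕ) : ℚ) := by
  classical
  have hne : ∀ i, NeZero (e i) := fun i => ⟨(e_pos h hp hpM i).ne'⟩
  -- the shift at one coordinate
  have hsh : ∀ i ∈ Ful M e p, ∀ (x : ZMod (e i)) (c : ℕ),
      (x + c • (((M / p : ℕ) : ZMod (e i)))).val / eu M e p i
        = (x.val / eu M e p i + c * (M / e i)) % p := by
    intro i hi x c
    have h1 : c • (((M / p : ℕ) : ZMod (e i))) = ((c * (M / e i) * eu M e p i : ℕ) : ZMod (e i)) := by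
      rw [nsmul_eq_mul, ← Nat.cast_mul, mul_assoc, ← Mp_eq h hp hpM hi]
    rw [h1]
    exact val_shift_div (eu_of_mem h hp hpM hi) (eu_pos h hp hpM i) x _
  -- the coordinates in `B`
  have h1 := h.sur B (by omega)
  choose! ρ hρ hρ1 hρ0 using h1
  have h2 : ∀ i ∈ B, ∃ c : ℕ, (z i + c • (((M / p : ℕ) : ZMod (e i)))).val / eu M e p i = p - 1 := by
    intro i hi
    obtain ⟨c, _, hc⟩ := digit_bij hp (not_dvd_W h hp hpM (hB hi)) ((z i).val / eu M e p i) (p - 1)
      (by have := hp.pos; omega)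
    exact ⟨c, by rw [hsh i (hB hi)]; exact hc⟩
  choose! c hc using h2
  set z₁ : ∀ i, ZMod (e i) := z + ∑ i ∈ B, c i • ((M / p) • ρ i) with hz₁
  have hz₁B : ∀ i ∈ B, z₁ i = z i + c i • (((M / p : ℕ) : ZMod (e i))) := by
    intro i hi
    rw [hz₁, Pi.add_apply, Finset.sum_apply, Finset.sum_eq_single i]
    · rw [Pi.smul_apply, Pi.smul_apply, hρ1 i hi, nsmul_one]
    · intro j hj hji
      rw [Pi.smul_apply, Pi.smul_apply, hρ0 j hj i hi hji.symm, smul_zero, smul_zero]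
    · intro h2
      exact absurd hi h2
  have hz₁Λ : z₁ - z ∈ Λ := by
    rw [hz₁, add_sub_cancel_left]
    exact Λ.sum_mem fun i hi => Λ.nsmul_mem (Λ.nsmul_mem (hρ i hi) _) _
  have hz₁r : rd h hp hpM z₁ = rd h hp hpM z := by
    rw [hz₁, map_add, map_sum]
    rw [Finset.sum_eq_zero fun i _ => by rw [map_nsmul, rd_nsmul, smul_zero], add_zero]
  -- averaging
  let G : AddSubgroup (∀ i, ZMod (e i)) :=
    (van Λ B 0).map (nsmulAddMonoidHom (M / p) : (∀ i, ZMod (e i)) →+ (∀ i, ZMod (e i)))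
  obtain ⟨x, hx, hsum⟩ := exists_ge_avg G T
    (fun t y => (((y t).val / eu M e p t : ℕ) : ℚ)) (fun _ => ((p : ℚ) - 1) / 2) (by
      intro t ht
      have htF := hT ht
      have htB : t ∉ B := Finset.disjoint_right.1 hBT ht
      obtain ⟨ρ', hρ', h1', h0'⟩ := h.sur (insert t B) (by
        rw [Finset.card_insert_of_notMem htB]; exact hBc) t (Finset.mem_insert_self _ _)
      refine ⟨(M / p) • ρ', ⟨ρ', ⟨hρ', fun i hi => h0' i (Finset.mem_insert_of_mem hi) (by
        rintro rfl; exact htB hi), by rw [zero_smul]⟩, rfl⟩, p, hp.pos, fun y => ?_⟩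
      refine le_of_eq ?_
      rw [← digit_sum hp (not_dvd_W h hp hpM htF) ((y t).val / eu M e p t)]
      refine Finset.sum_congr rfl fun c _ => ?_
      rw [Pi.add_apply, Pi.smul_apply, Pi.smul_apply, h1', nsmul_one, hsh t htF]) z₁
  obtain ⟨w, ⟨hw1, hw2, _⟩, rfl⟩ := hx
  have hw : (nsmulAddMonoidHom (M / p) : (∀ i, ZMod (e i)) →+ (∀ i, ZMod (e i))) w
    = (M / p) • w := rfl
  refine ⟨z₁ + (M / p) • w, ?_, ?_, ?_, ?_⟩
  · have : z₁ + (M / p) • w - z = (z₁ - z) + (M / p) • w := by abel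
    rw [this]
    exact Λ.add_mem hz₁Λ (Λ.nsmul_mem hw1 _)
  · rw [map_add, rd_nsmul, add_zero, hz₁r]
  · intro i hi
    rw [Pi.add_apply, Pi.smul_apply, hw2 i hi, smul_zero, add_zero, hz₁B i hi]
    exact hc i hi
  · rw [Finset.sum_const, nsmul_eq_mul] at hsum
    exact hsum

/-- choice of the lower digits -/
theorem lower (x : ∀ i, ZMod (e i)) (I : Finset (Fin r)) (hI : I.card ≤ n) :
    ∃ z, z - x ∈ Λ ∧ (∀ i ∈ I, (z i).val % eu M e p i = eu M e p i - 1) ∧
      (∑ i ∈ I, ((wt (eu M e p) (M / p) i : ℚ) - 1) + ((n : ℚ) - I.card) * (((M / p : ℕ) : ℚ) - 1)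
        ≤ ∑ j ∈ Finset.univ \ I, (((z j).val % eu M e p j : ℕ) : ℚ) * wt (eu M e p) (M / p) j) ∧
      ∀ i₀ ∈ I, ∑ i ∈ I.erase i₀, ((wt (eu M e p) (M / p) i : ℚ) - 1)
        + ((n : ℚ) - I.card) * (((M / p : ℕ) : ℚ) - 1) + (((M / p : ℕ) : ℚ) - eu M e p i₀)
        ≤ ∑ j ∈ Finset.univ \ I, (((z j).val % eu M e p j : ℕ) : ℚ) * wt (eu M e p) (M / p) j := by
  classical
  have hne : ∀ i, NeZero (e i) := fun i => ⟨(e_pos h hp hpM i).ne'⟩
  have hne' : ∀ i, NeZero (eu M e p i) := fun i => ⟨(eu_pos h hp hpM i).ne'⟩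
  obtain ⟨z₀, hz₀, hz₀I⟩ := exists_pre h hp hpM x I hI (fun i => ((e i - 1 : ℕ) : ZMod (e i)))
  obtain ⟨y', ⟨l, hl, hl'⟩, hy2, hy3⟩ := exists_topE (Λ.map (rd h hp hpM)) (rest I) I
    (rd h hp hpM z₀)
  have hrd : rd h hp hpM (z₀ + l) = y' := by
    rw [map_add, hl']
    abel
  have hval : ∀ j, (((z₀ + l) j).val % eu M e p j : ℕ) = (y' j).val := by
    intro j
    rw [← hrd, rd_val]
  have hsum : ((rest I).map fun j => ((y' j).val * wt (eu M e p) (M / p) j : ℚ)).sum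
      = ∑ j ∈ Finset.univ \ I, ((((z₀ + l) j).val % eu M e p j : ℕ) : ℚ)
        * wt (eu M e p) (M / p) j := by
    have h1 := List.sum_toFinset (fun j => ((y' j).val * wt (eu M e p) (M / p) j : ℚ))
      (rest_nodup I)
    rw [← h1, rest, Finset.toList_toFinset]
    exact Finset.sum_congr rfl fun j _ => by rw [hval]
  have h2 := TopE.sum (M := M / p) _ _ hy3
  rw [hsum] at h2
  refine ⟨z₀ + l, ?_, ?_, ?_, ?_⟩
  · have : z₀ + l - x = (z₀ - x) + l := by abel
    rw [this]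
    exact Λ.add_mem hz₀ hl
  · intro i hi
    have h3 : y' i = rd h hp hpM z₀ i := hy2 i hi
    rw [hval, h3, rd_val, hz₀I i hi, ZMod.val_natCast]
    obtain ⟨k, hk⟩ := eu_dvd h hp hpM i
    have hE := eu_pos h hp hpM i
    have hk0 : 0 < k := by
      rcases Nat.eq_zero_or_pos k with h0 | h0
      · rw [h0, mul_zero] at hk
        have := e_pos h hp hpM i
        omega
      · exact h0
    rw [Nat.mod_eq_of_lt (show e i - 1 < e i by have := e_pos h hp hpM i; omega)]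
    obtain ⟨k', rfl⟩ : ∃ k', k = k' + 1 := ⟨k - 1, by omega⟩
    have h4 : e i - 1 = (eu M e p i - 1) + eu M e p i * k' := by
      rw [hk, mul_add, mul_one]
      omega
    rw [h4, Nat.add_mul_mod_self_left, Nat.mod_eq_of_lt (by omega)]
  · exact (tot_ge0 (Mp_ne h hp hpM) (Λ.map (rd h hp hpM)) n (sur_rd h hp hpM)
      (full_rd h hp hpM) I hI (rest I) (rest_union I)).trans h2
  · intro i₀ hi₀
    have h3 := (tot_ge1 (Mp_ne h hp hpM) (Λ.map (rd h hp hpM)) n (sur_rd h hp hpM)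
      (full_rd h hp hpM) I hI (rest I) (rest_union I) i₀ hi₀).trans h2
    rw [Nat.gcd_eq_right (eu_dvd' h hp hpM i₀)] at h3
    exact h3

end

end Pool.Agent.K3h47.HY
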