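import Pool.Agent.K3h47.HY.Up

/-! The estimates obtained by splitting off the top `p`-digits. -/

set_option autoImplicit false
set_option linter.unusedSectionVars false

namespace Pool.Agent.K3h47.HY

open Pool.Agent.K3h47.FU

section
variable {n r M : ℕ} {e : Fin r → ℕ} {Λ : AddSubgroup (∀ i, ZMod (e i))} (h : Cmb n r M e Λ)
  {p : ℕ} (hp : p.Prime) (hpM : p ∣ M)
include h hp hpM

/-- the contribution of the lower digits at one coordinate -/
def lowq (M : ℕ) (e : Fin r → ℕ) (p : ℕ) (y : ∀ i, ZMod (e i)) (j : Fin r) : ℚ :=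
  (((y j).val % eu M e p j : ℕ) : ℚ) * wt (eu M e p) (M / p) j

theorem lowq_nonneg (y : ∀ i, ZMod (e i)) (j : Fin r) : 0 ≤ lowq M e p y j := by
  rw [lowq]
  positivity

theorem val_split (y : ∀ i, ZMod (e i)) :
    (Val M e y : ℚ) = ∑ j, lowq M e p y j + (p - 1) * ∑ j ∈ Finset.univ \ Ful M e p, lowq M e p y j
      + ((M / p : ℕ) : ℚ) * ∑ j ∈ Ful M e p, (((y j).val / eu M e p j : ℕ) : ℚ) := by
  classical
  have hne : ∀ i, NeZero (e i) := fun i => ⟨(e_pos h hp hpM i).ne'⟩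
  have h1 : ∀ j ∈ Ful M e p, (((y j).val * (M / e j) : ℕ) : ℚ) = lowq M e p y j
      + ((M / p : ℕ) : ℚ) * (((y j).val / eu M e p j : ℕ) : ℚ) := by
    intro j hj
    rw [lowq, wt_mem h hp hpM hj, Mp_eq h hp hpM hj]
    have h2 := Nat.mod_add_div (y j).val (eu M e p j)
    have h3 : ((y j).val : ℚ) = (((y j).val % eu M e p j : ℕ) : ℚ)
      + (eu M e p j : ℚ) * (((y j).val / eu M e p j : ℕ) : ℚ) := by exact_mod_cast h2.symm
    rw [Nat.cast_mul, h3]
    push_cast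
    ring
  have h2 : ∀ j ∈ Finset.univ \ Ful M e p, (((y j).val * (M / e j) : ℕ) : ℚ)
      = lowq M e p y j + (p - 1) * lowq M e p y j := by
    intro j hj
    have hj' : j ∉ Ful M e p := (Finset.mem_sdiff.1 hj).2
    rw [lowq, eu_of_notMem h hp hpM hj', Nat.mod_eq_of_lt (ZMod.val_lt _), wt_notMem h hp hpM hj']
    push_cast
    ring
  rw [Val, Nat.cast_sum, ← Finset.sum_sdiff (Finset.subset_univ (Ful M e p)),
    Finset.sum_congr rfl h1, Finset.sum_congr rfl h2, Finset.sum_add_distrib,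
    Finset.sum_add_distrib, ← Finset.mul_sum, ← Finset.mul_sum,
    ← Finset.sum_sdiff (Finset.subset_univ (Ful M e p)) (f := fun j => lowq M e p y j)]
  ring

/-- the common part of the estimates -/
theorem est (x : ∀ i, ZMod (e i)) (J I : Finset (Fin r)) (hJ : J.card + 1 = n) (hJI : J ⊆ I)
    (hI : I.card ≤ n) (hF : n + 1 ≤ (Ful M e p).card) :
    ∃ (y : ∀ i, ZMod (e i)) (D : ℕ), y - x ∈ Λ ∧ (∀ i ∈ J, (y i).val = e i - 1) ∧
      ((p : ℚ) - 1) * (n - 1) + (((Ful M e p).card : ℚ) - (n - 1)) * ((p - 1) / 2) ≤ D ∧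
      (∑ i ∈ I, (((M / p : ℕ) : ℚ) - wt (eu M e p) (M / p) i)
        + (p - 1) * ∑ i ∈ I \ Ful M e p, (((M / p : ℕ) : ℚ) - wt (eu M e p) (M / p) i)
        + (∑ i ∈ I, ((wt (eu M e p) (M / p) i : ℚ) - 1)
          + ((n : ℚ) - I.card) * (((M / p : ℕ) : ℚ) - 1)) + ((M / p : ℕ) : ℚ) * D ≤ Val M e y) ∧
      ∀ i₀ ∈ I, ∑ i ∈ I, (((M / p : ℕ) : ℚ) - wt (eu M e p) (M / p) i)
        + (p - 1) * ∑ i ∈ I \ Ful M e p, (((M / p : ℕ) : ℚ) - wt (eu M e p) (M / p) i)
        + (∑ i ∈ I.erase i₀, ((wt (eu M e p) (M / p) i : ℚ) - 1)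
          + ((n : ℚ) - I.card) * (((M / p : ℕ) : ℚ) - 1) + (((M / p : ℕ) : ℚ) - eu M e p i₀))
        + ((M / p : ℕ) : ℚ) * D ≤ Val M e y := by
  classical
  have hne : ∀ i, NeZero (e i) := fun i => ⟨(e_pos h hp hpM i).ne'⟩
  obtain ⟨B, hJB, hBF, hBc⟩ := Finset.exists_subsuperset_card_eq (s := J ∩ Ful M e p)
    (t := Ful M e p) (n := n - 1) Finset.inter_subset_right (by
      have := Finset.card_le_card (Finset.inter_subset_left : J ∩ Ful M e p ⊆ J)
      omega) (by omega)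
  obtain ⟨z, hz, hzI, hz0, hz1⟩ := lower h hp hpM x I hI
  obtain ⟨y, hy, hyr, hyB, hyT⟩ := digits h hp hpM z B (Ful M e p \ B) hBF (by omega)
    Finset.sdiff_subset Finset.disjoint_sdiff
  have hlow : ∀ j, (y j).val % eu M e p j = (z j).val % eu M e p j := by
    intro j
    rw [← rd_val h hp hpM, ← rd_val h hp hpM, hyr]
  set D : ℕ := ∑ j ∈ Ful M e p, (y j).val / eu M e p j with hD
  have hDq : (D : ℚ) = ∑ j ∈ Ful M e p, (((y j).val / eu M e p j : ℕ) : ℚ) := by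
    rw [hD, Nat.cast_sum]
  have hp1 : (0 : ℚ) ≤ (p : ℚ) - 1 := by
    have : (1 : ℚ) ≤ p := by exact_mod_cast hp.one_lt.le
    linarith
  -- the values on `I`
  have hlowI : ∀ i ∈ I, lowq M e p y i = ((M / p : ℕ) : ℚ) - wt (eu M e p) (M / p) i := by
    intro i hi
    have hE := eu_pos h hp hpM i
    have h1 : wt (eu M e p) (M / p) i * eu M e p i = M / p := by
      rw [wt_eu h hp hpM, Nat.div_mul_cancel (eu_dvd' h hp hpM i)]
    have h2 : (wt (eu M e p) (M / p) i : ℚ) * eu M e p i = ((M / p : ℕ) : ℚ) := by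
      exact_mod_cast h1
    rw [lowq, hlow i, hzI i hi, Nat.cast_sub (by omega), Nat.cast_one]
    linarith
  -- the sum over the coordinates outside `I`
  have hrest : ∑ j ∈ Finset.univ \ I, lowq M e p y j = ∑ j ∈ Finset.univ \ I,
      (((z j).val % eu M e p j : ℕ) : ℚ) * wt (eu M e p) (M / p) j :=
    Finset.sum_congr rfl fun j _ => by rw [lowq, hlow j]
  have hall : ∑ j, lowq M e p y j = ∑ i ∈ I, (((M / p : ℕ) : ℚ) - wt (eu M e p) (M / p) i)
      + ∑ j ∈ Finset.univ \ I, lowq M e p y j := by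
    rw [← Finset.sum_sdiff (Finset.subset_univ I), Finset.sum_congr rfl hlowI]
    ring
  have hnf : ∑ i ∈ I \ Ful M e p, (((M / p : ℕ) : ℚ) - wt (eu M e p) (M / p) i) ≤
      ∑ j ∈ Finset.univ \ Ful M e p, lowq M e p y j := by
    rw [← Finset.sum_congr rfl fun i hi => hlowI i (Finset.mem_sdiff.1 hi).1]
    exact Finset.sum_le_sum_of_subset_of_nonneg
      (Finset.sdiff_subset_sdiff (Finset.subset_univ _) le_rfl)
      fun j _ _ => lowq_nonneg h hp hpM y j
  have hval := val_split h hp hpM y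
  rw [hall, ← hDq] at hval
  have hnf' := mul_le_mul_of_nonneg_left hnf hp1
  refine ⟨y, D, ?_, ?_, ?_, ?_, ?_⟩
  · have : y - x = (y - z) + (z - x) := by abel
    rw [this]
    exact Λ.add_mem hy hz
  · intro i hi
    have h1 : (y i).val % eu M e p i = eu M e p i - 1 := by rw [hlow i, hzI i (hJI hi)]
    have hE := eu_pos h hp hpM i
    by_cases hiF : i ∈ Ful M e p
    · have h2 := hyB i (hJB (Finset.mem_inter.2 ⟨hi, hiF⟩))
      have h3 := Nat.mod_add_div (y i).val (eu M e p i)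
      rw [h1, h2] at h3
      rw [← h3, eu_of_mem h hp hpM hiF]
      obtain ⟨q, rfl⟩ : ∃ q, p = q + 1 := ⟨p - 1, by have := hp.pos; omega⟩
      have h4 : (q + 1) * eu M e (q + 1) i = eu M e (q + 1) i * q + eu M e (q + 1) i := by ring
      rw [h4, Nat.add_sub_cancel]
      omega
    · rw [eu_of_notMem h hp hpM hiF, Nat.mod_eq_of_lt (ZMod.val_lt _)] at h1
      exact h1
  · have h1 : (D : ℚ) = ∑ j ∈ B, (((y j).val / eu M e p j : ℕ) : ℚ)
        + ∑ j ∈ Ful M e p \ B, (((y j).val / eu M e p j : ℕ) : ℚ) := by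
      rw [hDq, ← Finset.sum_sdiff hBF]
      ring
    have h2 : ∑ j ∈ B, (((y j).val / eu M e p j : ℕ) : ℚ) = (n - 1) * (p - 1) := by
      rw [Finset.sum_congr rfl fun j hj => by rw [hyB j hj], Finset.sum_const, hBc, nsmul_eq_mul,
        Nat.cast_sub (by omega), Nat.cast_sub hp.one_lt.le, Nat.cast_one]
    have h3 : ((Ful M e p \ B).card : ℚ) = (Ful M e p).card - (n - 1) := by
      rw [Finset.cast_card_sdiff hBF, hBc, Nat.cast_sub (by omega), Nat.cast_one]
    rw [h3] at hyT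
    rw [h1, h2]
    linarith
  · linarith
  · intro i₀ hi₀
    have := hz1 i₀ hi₀
    linarith

end

theorem t_UP0 : S_UP0 := by
  classical
  intro n r M e Λ h hn hr p hp hpM hF J x hJ
  have hFc : (Ful M e p).card = r := by rw [hF, Finset.card_univ, Fintype.card_fin]
  obtain ⟨y, D, hy1, hy2, hD, hV, _⟩ := est h hp hpM x J J hJ (le_refl _) (by omega) (by omega)
  refine ⟨y, hy1, hy2, ?_⟩
  have hp2 : (2 : ℚ) ≤ p := by exact_mod_cast hp.two_le
  rw [hFc] at hD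
  have hr' : ((n : ℚ) + 4) ≤ r := by exact_mod_cast hr
  have hD1 : ((n : ℚ) + 1) * (p - 1) < D := by
    refine lt_of_lt_of_le ?_ hD
    nlinarith
  have hD2 : (n + 1) * p - n ≤ D := by
    have h1 : ((n + 1) * (p - 1) : ℕ) < D := by
      have h2 : (((n + 1) * (p - 1) : ℕ) : ℚ) < D := by
        rw [Nat.cast_mul, Nat.cast_sub hp.one_lt.le]
        push_cast
        exact hD1
      exact_mod_cast h2
    obtain ⟨q, rfl⟩ : ∃ q, p = q + 1 := ⟨p - 1, by have := hp.pos; omega⟩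
    rw [Nat.add_sub_cancel] at h1
    have h3 : (n + 1) * (q + 1) = (n + 1) * q + n + 1 := by ring
    rw [h3]
    omega
  have hD3 : ((n : ℚ) + 1) * p - n ≤ D := by
    have h1 : (n + 1) * p ≤ D + n := by omega
    have h2 : ((n : ℚ) + 1) * p ≤ D + n := by exact_mod_cast h1
    linarith
  have hM'0 := Mp_ne h hp hpM
  have hM' : (0 : ℚ) < ((M / p : ℕ) : ℚ) := by exact_mod_cast Nat.pos_of_ne_zero hM'0
  have hMq : (M : ℚ) = p * ((M / p : ℕ) : ℚ) := by
    have := Nat.mul_div_cancel' hpM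
    exact_mod_cast this.symm
  have hemp : J \ Ful M e p = ∅ := by
    rw [hF]
    exact Finset.sdiff_eq_empty_iff_subset.2 (Finset.subset_univ _)
  have hJq : (J.card : ℚ) = n - 1 := by
    rw [← hJ]
    push_cast
    ring
  rw [hemp, Finset.sum_empty, mul_zero, add_zero, ← add_assoc, ← Finset.sum_add_distrib,
    Finset.sum_congr rfl fun i _ => (by ring : ((M / p : ℕ) : ℚ) - wt (eu M e p) (M / p) i
      + ((wt (eu M e p) (M / p) i : ℚ) - 1) = ((M / p : ℕ) : ℚ) - 1), Finset.sum_const,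
    nsmul_eq_mul, hJq] at hV
  have h1 := mul_le_mul_of_nonneg_left hD3 hM'.le
  have h2 : (((n + 1) * M : ℕ) : ℚ) < ((Val M e y + (n + 2) : ℕ) : ℚ) := by
    push_cast
    rw [hMq]
    nlinarith
  exact_mod_cast h2

theorem t_UP1 : S_UP1 := by
  classical
  intro n r M e Λ h p hp hpM hF i₀ J x hi₀ hJ hcond
  obtain ⟨I, hI⟩ : ∃ I, I = insert i₀ J := ⟨_, rfl⟩
  have hIc : I.card ≤ n := by
    have := Finset.card_insert_le i₀ J
    rw [← hI] at this
    omega
  have hi₀I : i₀ ∈ I := by rw [hI]; exact Finset.mem_insert_self _ _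
  have hJI : J ⊆ I := by rw [hI]; exact Finset.subset_insert _ _
  obtain ⟨y, D, hy1, hy2, hD, _, hV0⟩ := est h hp hpM x J I hJ hJI hIc (by omega)
  have hV := hV0 i₀ hi₀I
  clear hV0
  refine ⟨y, hy1, hy2, ?_⟩
  have hp2 : (2 : ℚ) ≤ p := by exact_mod_cast hp.two_le
  have hFq : ((n : ℚ) + 2) ≤ (Ful M e p).card := by exact_mod_cast hF
  have hM'0 := Mp_ne h hp hpM
  have hM' : (0 : ℚ) < ((M / p : ℕ) : ℚ) := by exact_mod_cast Nat.pos_of_ne_zero hM'0
  have hMq : (M : ℚ) = p * ((M / p : ℕ) : ℚ) := by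
    have := Nat.mul_div_cancel' hpM
    exact_mod_cast this.symm
  obtain ⟨w, hw⟩ : ∃ w : Fin r → ℚ, ∀ i, w i = (wt (eu M e p) (M / p) i : ℚ) :=
    ⟨fun i => (wt (eu M e p) (M / p) i : ℚ), fun i => rfl⟩
  -- the weight of `i₀`
  have he0 : eu M e p i₀ = e i₀ := eu_of_notMem h hp hpM hi₀
  have hw0 : w i₀ * e i₀ = ((M / p : ℕ) : ℚ) := by
    have h1 : wt (eu M e p) (M / p) i₀ * eu M e p i₀ = M / p := by
      rw [wt_eu h hp hpM, Nat.div_mul_cancel (eu_dvd' h hp hpM i₀)]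
    rw [he0] at h1
    rw [hw]
    exact_mod_cast h1
  have he2 : (2 : ℚ) ≤ e i₀ := by exact_mod_cast h.two i₀
  have hw1 : (1 : ℚ) ≤ w i₀ := by
    have h1 : wt (eu M e p) (M / p) i₀ ≠ 0 := by
      intro h0
      rw [hw, h0, Nat.cast_zero, zero_mul] at hw0
      exact hM'.ne hw0
    rw [hw]
    exact_mod_cast Nat.one_le_iff_ne_zero.2 h1
  -- the other weights
  have hwle : ∀ i ∈ I \ Ful M e p, ((M / p : ℕ) : ℚ) / 2 ≤ ((M / p : ℕ) : ℚ) - w i := by
    intro i hi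
    have hiF : i ∉ Ful M e p := (Finset.mem_sdiff.1 hi).2
    have h1 : wt (eu M e p) (M / p) i * eu M e p i = M / p := by
      rw [wt_eu h hp hpM, Nat.div_mul_cancel (eu_dvd' h hp hpM i)]
    rw [eu_of_notMem h hp hpM hiF] at h1
    have h2 : w i * e i = ((M / p : ℕ) : ℚ) := by
      rw [hw]
      exact_mod_cast h1
    have h3 : (2 : ℚ) ≤ e i := by exact_mod_cast h.two i
    have h4 : (0 : ℚ) ≤ w i := by rw [hw]; positivity
    nlinarith
  rw [he0] at hV
  simp only [← hw] at hV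
  generalize ((M / p : ℕ) : ℚ) = m' at *
  obtain ⟨u, hu⟩ : ∃ u : ℕ, u = ((I \ Ful M e p).erase i₀).card := ⟨_, rfl⟩
  have hsum1 : ∑ i ∈ I \ Ful M e p, (m' - w i) = (m' - w i₀) + ∑ i ∈ (I \ Ful M e p).erase i₀, (m' - w i) :=
    (Finset.add_sum_erase _ (fun i => m' - w i) (Finset.mem_sdiff.2 ⟨hi₀I, hi₀⟩)).symm
  have hsum2 : (u : ℚ) * (m' / 2) ≤ ∑ i ∈ (I \ Ful M e p).erase i₀, (m' - w i) := by
    rw [hu, ← nsmul_eq_mul, ← Finset.sum_const]
    exact Finset.sum_le_sum fun i hi => hwle i (Finset.mem_of_mem_erase hi)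
  have hsum3 : ∑ i ∈ I, (m' - w i) + ∑ i ∈ I.erase i₀, (w i - 1)
      = (m' - w i₀) + ((I.card : ℚ) - 1) * (m' - 1) := by
    rw [← Finset.add_sum_erase I (fun i => m' - w i) hi₀I, add_assoc, ← Finset.sum_add_distrib,
      Finset.sum_congr rfl fun i _ => (by ring : m' - w i + (w i - 1) = m' - 1),
      Finset.sum_const, nsmul_eq_mul, Finset.card_erase_of_mem hi₀I,
      Nat.cast_sub (Finset.card_pos.2 ⟨i₀, hi₀I⟩), Nat.cast_one]
  have hV' : ((n : ℚ) - 1) * (m' - 1) + p * (m' - w i₀) + (m' - e i₀)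
      + (p - 1) * (u * (m' / 2)) + m' * D ≤ Val M e y := by
    have h1 : (p - 1 : ℚ) * ∑ i ∈ I \ Ful M e p, (m' - w i) ≥
        (p - 1) * ((m' - w i₀) + u * (m' / 2)) := by
      rw [hsum1]
      exact mul_le_mul_of_nonneg_left (by linarith) (by linarith)
    linarith
  -- it suffices to bound `D`
  have key : ∀ q : ℚ, ((p : ℚ) - 1) * (n + 1) - q * ((p - 1) / 2) ≤ D + u * ((p - 1) / 2) →
      0 < (p - 1) * m' - p * w i₀ - e i₀ + 3 - q * ((p - 1) / 2) * m' →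
      (n + 1) * M < Val M e y + (n + 2) := by
    intro q hq1 hq2
    have h1 := mul_le_mul_of_nonneg_left hq1 hM'.le
    have h2 : (((n + 1) * M : ℕ) : ℚ) < ((Val M e y + (n + 2) : ℕ) : ℚ) := by
      push_cast
      rw [hMq]
      linarith
    exact_mod_cast h2
  -- the main inequality
  have hmain : 0 < (p - 1) * m' - p * w i₀ - e i₀ + 3 := by
    rw [← hw0]
    have h1 : 0 ≤ (w i₀ - 1) * ((e i₀ : ℚ) - 2) := mul_nonneg (by linarith) (by linarith)
    have h2 : 0 ≤ w i₀ * (((p : ℚ) - 2) * (e i₀ - 1)) :=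
      mul_nonneg (by linarith) (mul_nonneg (by linarith) (by linarith))
    linarith
  have hmain0 : 0 < (p - 1) * m' - p * w i₀ - e i₀ + 3 - (0 : ℚ) * ((p - 1) / 2) * m' := by
    rw [zero_mul, zero_mul, sub_zero]; exact hmain
  have hu0 : (0 : ℚ) ≤ u * ((p - 1) / 2) := mul_nonneg (by positivity) (by linarith)
  have hFm : ∀ c : ℚ, (n : ℚ) + c ≤ (Ful M e p).card →
      ((p : ℚ) - 1) * (n - 1) + (c + 1) * ((p - 1) / 2) ≤ D := by
    intro c hc
    have h1 : (c + 1) * (((p : ℚ) - 1) / 2) ≤ (((Ful M e p).card : ℚ) - (n - 1)) * ((p - 1) / 2) :=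
      mul_le_mul_of_nonneg_right (by linarith) (by linarith)
    linarith
  rcases hcond with h1 | h1 | ⟨j, hj, hjF, hji⟩ | ⟨h1, h2⟩
  · have h3 : ((n : ℚ) + 3) ≤ (Ful M e p).card := by exact_mod_cast h1
    have h4 := hFm 3 h3
    refine key 0 ?_ hmain0
    linarith
  · subst h1
    refine key 0 ?_ hmain0
    have h2 := hFm 2 hFq
    push_cast at h2
    have h4 : (n : ℚ) < D := by linarith
    have h5 : n < D := by exact_mod_cast h4
    have h6 : (n : ℚ) + 1 ≤ D := by exact_mod_cast h5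
    push_cast at hu0 ⊢
    linarith
  · have h3 : 1 ≤ u := by
      rw [hu, Nat.one_le_iff_ne_zero, Ne, Finset.card_eq_zero, ← Ne, ← Finset.nonempty_iff_ne_empty]
      refine ⟨j, Finset.mem_erase.2 ⟨hji, Finset.mem_sdiff.2 ⟨hJI hj, hjF⟩⟩⟩
    have h4 : (1 : ℚ) ≤ u := by exact_mod_cast h3
    have h5 := hFm 2 hFq
    have h6 : (1 : ℚ) * (((p : ℚ) - 1) / 2) ≤ u * ((p - 1) / 2) :=
      mul_le_mul_of_nonneg_right h4 (by linarith)
    refine key 0 ?_ hmain0
    linarith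
  · have h3 : (3 : ℚ) ≤ e i₀ := by exact_mod_cast h1
    have h4 : (5 : ℚ) ≤ p := by exact_mod_cast h2
    have h5 := hFm 2 hFq
    refine key 1 ?_ ?_
    · linarith
    · rw [← hw0]
      have h5 : 0 ≤ (w i₀ - 1) * ((e i₀ : ℚ) - 2) := mul_nonneg (by linarith) (by linarith)
      have h6 : 0 ≤ w i₀ * ((((p : ℚ) - 3) / 2) * (e i₀ - 3)) :=
        mul_nonneg (by linarith) (mul_nonneg (by linarith) (by linarith))
      have h7 : 0 ≤ w i₀ * (((p : ℚ) - 5) / 2) := mul_nonneg (by linarith) (by linarith)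
      nlinarith

end Pool.Agent.K3h47.HY
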